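import Pool.Agent.LibNT38.T0

set_option autoImplicit false

namespace LibNC38

section TA2_sec

attribute [local instance] Matrix.linftyOpNormedRing Matrix.linftyOpNormedAlgebra

private theorem TA2_entry {n : ℕ} (W : Matrix (Fin n) (Fin n) ℝ) (s : ℝ) (i j : Fin n) :
    HasDerivAt (fun s : ℝ => (NormedSpace.exp (s • W) : Matrix (Fin n) (Fin n) ℝ) i j)
      ((W * NormedSpace.exp (s • W)) i j) s := by
  have h := hasDerivAt_exp_smul_const' (𝕂 := ℝ) (𝔸 := Matrix (Fin n) (Fin n) ℝ) W s
  have h2 := ((Matrix.entryLinearMap ℝ ℝ i j).toContinuousLinearMap.hasFDerivAt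
    (x := NormedSpace.exp (s • W))).comp_hasDerivAt s h
  exact h2

end TA2_sec

end LibNC38

open Matrix MeasureTheory Topology Filter
open scoped Matrix.Norms.Elementwise

namespace LibNC38

/-- Row TA2. Derivative of `s ↦ exp(s W)` for the elementwise norm. PLAN. In the operator norm
(`Matrix.linftyOpNormedRing`) this is `hasDerivAt_exp_smul_const` (or `'`); transfer: entrywise
(`hasDerivAt_pi` twice on the elementwise side; the entries `A ↦ A i j` are continuous linear for the
operator norm). -/
theorem exp_deriv {n : ℕ} (W : Mt n) (s : ℝ) :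
    HasDerivAt (fun s : ℝ => (NormedSpace.exp (s • W) : Mt n)) (W * NormedSpace.exp (s • W)) s := by
  refine hasDerivAt_pi.2 fun i => hasDerivAt_pi.2 fun j => ?_
  exact TA2_entry W s i j

end LibNC38
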