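import Pool.Agent.LibNT38.TA1
import Pool.Agent.LibNT38.TA2

set_option autoImplicit false

open Matrix MeasureTheory Topology Filter
open scoped Matrix.Norms.Elementwise ContDiff

namespace LibNC38

/-- Row TB1. Inverse function theorem for `exp` at `0`: there is an open `N' ∋ 0`, with
`N = exp N'` open and a local inverse of class `C²`. `N'` is invariant under transposition.
PLAN. `exp` is `C²` (`exp_smooth`) with derivative the identity at `0` (differentiable by `exp_smooth`;
along each `Z` the derivative is `Z` by `exp_deriv`; so `fderiv = id`), strictly by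
`ContDiffAt.hasStrictFDerivAt'`. `ContDiffAt.toOpenPartialHomeomorph` (formerly
`toPartialHomeomorph`); its `symm` is `C²` at `1` (`ContDiffAt.to_localInverse`), hence at all points
near `1` (`ContDiffAt.eventually`). Shrink: `N' := {Z | Z ∈ S ∧ Zᵀ ∈ S}` where `S` is the source
intersected with the preimage of the good neighbourhood of `1`; `N := exp '' N'` is open (image of an
open subset of the source). -/
theorem log_ex {n : ℕ} : ∃ (N N' : Set (Mt n)) (L : Mt n → Mt n), IsOpen N ∧ IsOpen N' ∧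
    (0 : Mt n) ∈ N' ∧ ContDiffOn ℝ ω L N ∧ (∀ Z ∈ N', Zᵀ ∈ N') ∧
    (∀ x ∈ N, L x ∈ N' ∧ NormedSpace.exp (L x) = x) ∧
    (∀ Z ∈ N', NormedSpace.exp Z ∈ N ∧ L (NormedSpace.exp Z) = Z) := by
  have hcs : CompleteSpace (Mt n) := FiniteDimensional.complete ℝ (Mt n)
  have hf : ContDiffAt ℝ ω (fun A : Mt n => NormedSpace.exp A) 0 := exp_smooth.contDiffAt
  have hfd : DifferentiableAt ℝ (fun A : Mt n => NormedSpace.exp A) 0 :=
    hf.differentiableAt (by norm_num)
  have hd : HasFDerivAt (fun A : Mt n => NormedSpace.exp A)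
      ((ContinuousLinearEquiv.refl ℝ (Mt n) : Mt n ≃L[ℝ] Mt n) : Mt n →L[ℝ] Mt n) 0 := by
    have h1 := hfd.hasFDerivAt
    have h2 : fderiv ℝ (fun A : Mt n => NormedSpace.exp A) 0 =
        ((ContinuousLinearEquiv.refl ℝ (Mt n) : Mt n ≃L[ℝ] Mt n) : Mt n →L[ℝ] Mt n) := by
      refine ContinuousLinearMap.ext fun Z => ?_
      have h3 : HasDerivAt (fun s : ℝ => s • Z) Z 0 := by
        have h := (hasDerivAt_id (0 : ℝ)).smul_const Z
        rw [one_smul] at h
        exact h
      have h1' : HasFDerivAt (fun A : Mt n => NormedSpace.exp A)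
          (fderiv ℝ (fun A : Mt n => NormedSpace.exp A) 0) ((0 : ℝ) • Z) := by
        rw [zero_smul]; exact h1
      have h4 := h1'.comp_hasDerivAt (0 : ℝ) h3
      have h5 := exp_deriv Z 0
      have h6 := h4.unique h5
      refine Eq.trans h6 ?_
      rw [zero_smul, NormedSpace.exp_zero, mul_one]
      rfl
    rw [h2] at h1
    exact h1
  set P := hf.toOpenPartialHomeomorph (fun A : Mt n => NormedSpace.exp A) hd (by norm_num) with hP
  have hPc : ∀ Z : Mt n, P Z = NormedSpace.exp Z := fun Z => rfl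
  have h0s : (0 : Mt n) ∈ P.source := hf.mem_toOpenPartialHomeomorph_source hd (by norm_num)
  have hinv : ContDiffAt ℝ ω P.symm (NormedSpace.exp (0 : Mt n)) := hf.to_localInverse hd (by norm_num)
  have hev : ∀ᶠ y in 𝓝 (NormedSpace.exp (0 : Mt n)), ContDiffAt ℝ ω P.symm y :=
    hinv.eventually (by norm_num)
  obtain ⟨V, hV, hVo, h0V⟩ := eventually_nhds_iff.1 hev
  have hcont : Continuous (fun A : Mt n => NormedSpace.exp A) := exp_smooth.continuous
  have hSo : IsOpen (P.source ∩ (fun A : Mt n => NormedSpace.exp A) ⁻¹' V) :=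
    P.open_source.inter (hVo.preimage hcont)
  have htr : Continuous (fun A : Mt n => Aᵀ) := by
    exact continuous_id.matrix_transpose
  set S := P.source ∩ (fun A : Mt n => NormedSpace.exp A) ⁻¹' V with hS
  have hN'o : IsOpen (S ∩ (fun A : Mt n => Aᵀ) ⁻¹' S) := hSo.inter (hSo.preimage htr)
  set N' := S ∩ (fun A : Mt n => Aᵀ) ⁻¹' S with hN'
  have hNo : IsOpen (P '' N') := by
    refine P.isOpen_image_of_subset_source hN'o fun Z hZ => hZ.1.1
  refine ⟨P '' N', N', P.symm, hNo, hN'o, ?_, ?_, ?_, ?_, ?_⟩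
  · have h0S : (0 : Mt n) ∈ S := ⟨h0s, h0V⟩
    refine ⟨h0S, ?_⟩
    change (0 : Mt n)ᵀ ∈ S
    rw [Matrix.transpose_zero]
    exact h0S
  · rintro x ⟨Z, hZ, rfl⟩
    exact (hV _ hZ.1.2).contDiffWithinAt
  · intro Z hZ
    refine ⟨hZ.2, ?_⟩
    change Zᵀᵀ ∈ S
    rw [Matrix.transpose_transpose]
    exact hZ.1
  · rintro x ⟨Z, hZ, rfl⟩
    have h1 : P.symm (P Z) = Z := P.left_inv hZ.1.1
    rw [h1]
    exact ⟨hZ, rfl⟩
  · intro Z hZ
    refine ⟨⟨Z, hZ, rfl⟩, ?_⟩
    exact P.left_inv hZ.1.1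

end LibNC38
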