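import Pool.Agent.LibNT38.T0

set_option autoImplicit false

open Matrix MeasureTheory Topology Filter
open scoped Matrix.Norms.Elementwise

namespace LibNC38

private theorem TI_conj {n : ℕ} (g : SL n) (p : PD n) (v : Mt n) :
    (act g p).1⁻¹ * (g.1 * v * g.1ᵀ) = g.1ᵀ⁻¹ * (p.1⁻¹ * v) * g.1ᵀ := by
  have hg : IsUnit g.1.det := by rw [g.2]; exact isUnit_one
  change (g.1 * p.1 * g.1ᵀ)⁻¹ * (g.1 * v * g.1ᵀ) = _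
  rw [Matrix.mul_inv_rev, Matrix.mul_inv_rev]
  calc g.1ᵀ⁻¹ * (p.1⁻¹ * g.1⁻¹) * (g.1 * v * g.1ᵀ)
      = g.1ᵀ⁻¹ * p.1⁻¹ * (g.1⁻¹ * g.1) * v * g.1ᵀ := by simp only [Matrix.mul_assoc]
    _ = g.1ᵀ⁻¹ * (p.1⁻¹ * v) * g.1ᵀ := by
        rw [Matrix.nonsing_inv_mul _ hg, Matrix.mul_one]; simp only [Matrix.mul_assoc]

private theorem TI_tr {n : ℕ} (g : SL n) (p : PD n) (a v : Mt n) :
    ((act g p).1⁻¹ * (g.1 * a * g.1ᵀ) * ((act g p).1⁻¹ * (g.1 * v * g.1ᵀ))).trace =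
      (p.1⁻¹ * a * (p.1⁻¹ * v)).trace := by
  have hgt : IsUnit g.1ᵀ.det := by rw [Matrix.det_transpose, g.2]; exact isUnit_one
  rw [TI_conj, TI_conj]
  calc Matrix.trace (g.1ᵀ⁻¹ * (p.1⁻¹ * a) * g.1ᵀ * (g.1ᵀ⁻¹ * (p.1⁻¹ * v) * g.1ᵀ))
      = Matrix.trace (g.1ᵀ⁻¹ * ((p.1⁻¹ * a) * (g.1ᵀ * g.1ᵀ⁻¹) * (p.1⁻¹ * v) * g.1ᵀ)) := by
        simp only [Matrix.mul_assoc]
    _ = Matrix.trace (((p.1⁻¹ * a) * (g.1ᵀ * g.1ᵀ⁻¹) * (p.1⁻¹ * v) * g.1ᵀ) * g.1ᵀ⁻¹) :=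
        Matrix.trace_mul_comm _ _
    _ = Matrix.trace ((p.1⁻¹ * a) * (g.1ᵀ * g.1ᵀ⁻¹) * (p.1⁻¹ * v) * (g.1ᵀ * g.1ᵀ⁻¹)) := by
        simp only [Matrix.mul_assoc]
    _ = Matrix.trace (p.1⁻¹ * a * (p.1⁻¹ * v)) := by
        rw [Matrix.mul_nonsing_inv _ hgt, Matrix.mul_one, Matrix.mul_one]

private theorem TI_zero {n : ℕ} (p : PD n) (v : Mt n) (hv : vᵀ = v)
    (h : (p.1⁻¹ * v * (p.1⁻¹ * v)).trace = 0) : v = 0 := by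
  set t := tch p with ht
  have e1 : t⁻¹.1 * t.1 = 1 := congrArg Subtype.val (inv_mul_cancel t)
  have e2 : t.1 * t⁻¹.1 = 1 := congrArg Subtype.val (mul_inv_cancel t)
  have hp : p.1 = t.1 * t.1ᵀ := (tch_mul p).symm
  have e3 : t⁻¹.1ᵀ * t.1ᵀ = 1 := by rw [← Matrix.transpose_mul, e2, Matrix.transpose_one]
  have hinv : p.1⁻¹ = t⁻¹.1ᵀ * t⁻¹.1 := by
    apply Matrix.inv_eq_left_inv
    rw [hp]
    calc t⁻¹.1ᵀ * t⁻¹.1 * (t.1 * t.1ᵀ) = t⁻¹.1ᵀ * (t⁻¹.1 * t.1) * t.1ᵀ := by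
          simp only [Matrix.mul_assoc]
      _ = 1 := by rw [e1, Matrix.mul_one, e3]
  set W := t⁻¹.1 * v * t⁻¹.1ᵀ with hW
  have hWs : Wᵀ = W := by
    rw [hW, Matrix.transpose_mul, Matrix.transpose_mul, Matrix.transpose_transpose, hv,
      Matrix.mul_assoc]
  have e4 : (p.1⁻¹ * v * (p.1⁻¹ * v)).trace = (W * Wᵀ).trace := by
    rw [hWs, hinv, hW]
    have : t⁻¹.1ᵀ * t⁻¹.1 * v * (t⁻¹.1ᵀ * t⁻¹.1 * v) =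
        t⁻¹.1ᵀ * (t⁻¹.1 * v * t⁻¹.1ᵀ * (t⁻¹.1 * v)) := by simp only [Matrix.mul_assoc]
    rw [this, Matrix.trace_mul_comm]
    simp only [Matrix.mul_assoc]
  have h0 : (W * Wᵀ).trace = 0 := by rw [← e4, h]
  have hW0 : W = 0 := by
    rw [Matrix.trace] at h0
    ext i j
    have h1 : ∀ i ∈ Finset.univ, 0 ≤ (W * Wᵀ).diag i := by
      intro i _
      rw [Matrix.diag_apply, Matrix.mul_apply]
      exact Finset.sum_nonneg fun j _ => by rw [Matrix.transpose_apply]; exact mul_self_nonneg _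
    have h2 := (Finset.sum_eq_zero_iff_of_nonneg h1).1 h0 i (Finset.mem_univ i)
    rw [Matrix.diag_apply, Matrix.mul_apply] at h2
    have h3 : ∀ j ∈ Finset.univ, 0 ≤ W i j * Wᵀ j i := by
      intro j _
      rw [Matrix.transpose_apply]; exact mul_self_nonneg _
    have h4 := (Finset.sum_eq_zero_iff_of_nonneg h3).1 h2 j (Finset.mem_univ j)
    rw [Matrix.transpose_apply] at h4
    rw [mul_self_eq_zero.1 h4, Matrix.zero_apply]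
  have h5 : v = t.1 * W * t.1ᵀ := by
    have e5 : t⁻¹.1ᵀ * t.1ᵀ = 1 := e3
    rw [hW]
    calc v = (t.1 * t⁻¹.1) * v * (t⁻¹.1ᵀ * t.1ᵀ) := by
          rw [e2, e5, Matrix.one_mul, Matrix.mul_one]
      _ = t.1 * (t⁻¹.1 * v * t⁻¹.1ᵀ) * t.1ᵀ := by simp only [Matrix.mul_assoc]
  rw [h5, hW0, Matrix.mul_zero, Matrix.zero_mul]

/-- Row TI. Equivariance of `Y` from the invariance of `ξ`. PLAN. Let `q = act γ p` and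
`D := Y q - γ (Y p) γᵀ`, tangent at `q` (`tan_facts.2.1`, linearity). For `w` tangent at `p`:
`2 tr (q⁻¹ Y q q⁻¹ (γ w γᵀ)) = ξ q (γ w γᵀ) = ξ p w = 2 tr (p⁻¹ Y p p⁻¹ w)
= 2 tr (q⁻¹ (γ Y p γᵀ) q⁻¹ (γ w γᵀ))` (`q⁻¹ = γ⁻ᵀ p⁻¹ γ⁻¹`). So `tr (q⁻¹ D q⁻¹ v) = 0` for all tangent
`v = γ w γᵀ`, `w = γ⁻¹ v γ⁻ᵀ`; with `v = D`: `gF q D D = 0`, so `spd q D = 0` (`gF_self`) and `D = 0`
(positivity of `spd`, see `spd_facts` / `tan_facts`). -/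
theorem Y_equiv {n : ℕ} (ξ : PD n → Mt n →ₗ[ℝ] ℝ) (Y : PD n → Mt n)
    (hT : ∀ p : PD n, IsTan p (Y p))
    (hY : ∀ (p : PD n) (v : Mt n), IsTan p v → ξ p v = 2 * (p.1⁻¹ * Y p * (p.1⁻¹ * v)).trace)
    (γ : SL n) (hξ : ∀ p v, IsTan p v → ξ (act γ p) (γ.1 * v * γ.1ᵀ) = ξ p v) (p : PD n) :
    Y (act γ p) = γ.1 * Y p * γ.1ᵀ := by
  have e1 : γ⁻¹.1 * γ.1 = 1 := congrArg Subtype.val (inv_mul_cancel γ)
  have e2 : γ.1 * γ⁻¹.1 = 1 := congrArg Subtype.val (mul_inv_cancel γ)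
  have e3 : γ⁻¹.1ᵀ * γ.1ᵀ = 1 := by rw [← Matrix.transpose_mul, e2, Matrix.transpose_one]
  have hback : act γ⁻¹ (act γ p) = p := by
    apply Subtype.ext
    change γ⁻¹.1 * (γ.1 * p.1 * γ.1ᵀ) * γ⁻¹.1ᵀ = p.1
    have e4 : γ.1ᵀ * γ⁻¹.1ᵀ = 1 := by rw [← Matrix.transpose_mul, e1, Matrix.transpose_one]
    calc γ⁻¹.1 * (γ.1 * p.1 * γ.1ᵀ) * γ⁻¹.1ᵀ
        = (γ⁻¹.1 * γ.1) * p.1 * (γ.1ᵀ * γ⁻¹.1ᵀ) := by simp only [Matrix.mul_assoc]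
      _ = p.1 := by rw [e1, e4, Matrix.one_mul, Matrix.mul_one]
  have hq1 : IsTan (act γ p) (Y (act γ p)) := hT _
  have hq2 : IsTan (act γ p) (γ.1 * Y p * γ.1ᵀ) := tan_facts.2.1 γ p (Y p) (hT p)
  have hD : IsTan (act γ p) (Y (act γ p) - γ.1 * Y p * γ.1ᵀ) := by
    have h := tan_facts.2.2.1 (act γ p) (Y (act γ p)) (γ.1 * Y p * γ.1ᵀ) 1 (-1) hq1 hq2
    have h' : (1 : ℝ) • Y (act γ p) + (-1 : ℝ) • (γ.1 * Y p * γ.1ᵀ) =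
        Y (act γ p) - γ.1 * Y p * γ.1ᵀ := by
      rw [one_smul, neg_smul, one_smul, sub_eq_add_neg]
    rw [h'] at h
    exact h
  set D := Y (act γ p) - γ.1 * Y p * γ.1ᵀ with hDdef
  have hw : IsTan p (γ⁻¹.1 * D * γ⁻¹.1ᵀ) := by
    have h := tan_facts.2.1 γ⁻¹ (act γ p) D hD
    rw [hback] at h
    exact h
  have hDw : γ.1 * (γ⁻¹.1 * D * γ⁻¹.1ᵀ) * γ.1ᵀ = D := by
    calc γ.1 * (γ⁻¹.1 * D * γ⁻¹.1ᵀ) * γ.1ᵀ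
        = (γ.1 * γ⁻¹.1) * D * (γ⁻¹.1ᵀ * γ.1ᵀ) := by simp only [Matrix.mul_assoc]
      _ = D := by rw [e2, e3, Matrix.one_mul, Matrix.mul_one]
  have h1 := hξ p _ hw
  rw [hDw, hY _ _ hD, hY _ _ hw] at h1
  have h2 := TI_tr γ p (Y p) (γ⁻¹.1 * D * γ⁻¹.1ᵀ)
  rw [hDw] at h2
  rw [← h2] at h1
  have h3 : ((act γ p).1⁻¹ * D * ((act γ p).1⁻¹ * D)).trace = 0 := by
    have h4 : (act γ p).1⁻¹ * D * ((act γ p).1⁻¹ * D) =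
        (act γ p).1⁻¹ * Y (act γ p) * ((act γ p).1⁻¹ * D) -
          (act γ p).1⁻¹ * (γ.1 * Y p * γ.1ᵀ) * ((act γ p).1⁻¹ * D) := by
      rw [← Matrix.sub_mul, ← Matrix.mul_sub]
    rw [h4, Matrix.trace_sub]
    linarith
  have h5 : D = 0 := TI_zero (act γ p) D hD.1 h3
  exact sub_eq_zero.1 h5

end LibNC38
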