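import Pool.Agent.LibNT38.TC1

set_option autoImplicit false

open Matrix MeasureTheory Topology Filter
open scoped Matrix.Norms.Elementwise

namespace LibNC38

private theorem TC2_mul {n : ℕ} (h k : SL n) (X : Mt n) :
    (h * k).1 * X * (h * k).1ᵀ = h.1 * (k.1 * X * k.1ᵀ) * h.1ᵀ := by
  have h1 : (h * k).1 = h.1 * k.1 := rfl
  rw [h1, Matrix.transpose_mul]
  simp only [Matrix.mul_assoc]

private theorem TC2_vel {n : ℕ} (y z : V0 n) :
    vel y z = (dgm y).1 * ((2 : ℝ) • dm z) * (dgm y).1ᵀ := by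
  unfold vel dm
  show _ = Matrix.diagonal _ * _ * (Matrix.diagonal _)ᵀ
  rw [Matrix.diagonal_transpose]
  ext i j
  rw [Matrix.mul_diagonal, Matrix.diagonal_mul, Matrix.smul_apply, smul_eq_mul]
  by_cases hij : i = j
  · subst hij
    rw [Matrix.diagonal_apply_eq, Matrix.diagonal_apply_eq]
    have : Real.exp (2 * y.1 i) = Real.exp (y.1 i) * Real.exp (y.1 i) := by
      rw [← Real.exp_add]; ring_nf
    rw [this]; ring
  · rw [Matrix.diagonal_apply_ne _ hij, Matrix.diagonal_apply_ne _ hij]; ring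

private theorem TC2_gvel {n : ℕ} (g : SL n) (z : V0 n) (s : ℝ) :
    gvel g z s = (g * dgm (s • z)).1 * ((2 : ℝ) • dm z) * (g * dgm (s • z)).1ᵀ := by
  rw [gvel, TC2_vel, TC2_mul]

private theorem TC2_pt {n : ℕ} (g : SL n) (y : V0 n) :
    act g (sg y) = act (g * dgm y) (o n) := by
  rw [act_facts.2.1]; rfl

private theorem TC2_spd {n : ℕ} (g : SL n) (z : V0 n) (s : ℝ) :
    spd (act g (sg (s • z))) (gvel g z s) ^ 2 =
      (((2 : ℝ) • dm z) * ((2 : ℝ) • dm z)).trace := by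
  rw [TC2_pt, TC2_gvel, spd_facts.1]
  have hs : ((2 : ℝ) • dm z)ᵀ = (2 : ℝ) • dm z := by
    rw [Matrix.transpose_smul, dm, Matrix.diagonal_transpose]
  rw [spd_facts.2.1 _ hs, Real.sq_sqrt (by positivity)]
  rw [Matrix.trace]
  refine Finset.sum_congr rfl fun i _ => ?_
  rw [Matrix.diag_apply, Matrix.mul_apply]
  refine Finset.sum_congr rfl fun j _ => ?_
  have h1 : ((2 : ℝ) • dm z) j i = ((2 : ℝ) • dm z) i j := by
    conv_lhs => rw [← hs]
    rfl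
  rw [h1, sq]

/-- Row TC2. Existence of the geodesic `s ↦ h exp(s W) hᵀ` in `PD n`: `act (h * k) (sg (s • z))`. -/
theorem geo_ex {n : ℕ} (h : SL n) (W : Mt n) (hW : Sym0 W) :
    ∃ c : ℝ → PD n, ∀ s, (c s).1 = h.1 * NormedSpace.exp (s • W) * h.1ᵀ := by
  obtain ⟨k, z, _, _, he, _⟩ := sym0_diag W hW
  refine ⟨fun s => act (h * k) (sg (s • z)), fun s => ?_⟩
  show (h * k).1 * (sg (s • z)).1 * (h * k).1ᵀ = _
  rw [TC2_mul, he s]

/-- Row TC2. The third clause of `Triv` along `s ↦ h exp(s W) hᵀ`. PLAN. `sym0_diag`, `GD` for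
`g := h * k`: `c s = act (h * k) (sg (s • z))` (`Subtype.ext`), `gvel (h * k) z s = h W exp(s W) hᵀ`,
`spd (c s) (...)^2 = (W * W).trace`: `spd_facts.1`-type invariance (`spd (act g p) (g v gᵀ) = spd p v`)
or directly `spd² = tr (c⁻¹ c' c⁻¹ c')`, `c⁻¹ c' = h⁻ᵀ W hᵀ` (`Real.sq_sqrt`; see `gF_self`). -/
theorem geo_mat {n : ℕ} (κ : PD n → Fm n) (c0 : ℝ) (ξ : PD n → Mt n →ₗ[ℝ] ℝ) (hG : GD κ c0 ξ)
    (h : SL n) (W : Mt n) (hW : Sym0 W) (c : ℝ → PD n)
    (hc : ∀ s, (c s).1 = h.1 * NormedSpace.exp (s • W) * h.1ᵀ) (s : ℝ) :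
    HasDerivAt (fun s => ξ (c s) (h.1 * (W * NormedSpace.exp (s • W)) * h.1ᵀ))
      (κ (c s) (h.1 * (W * NormedSpace.exp (s • W)) * h.1ᵀ)
        (h.1 * (W * NormedSpace.exp (s • W)) * h.1ᵀ) - c0 * (W * W).trace) s := by
  obtain ⟨k, z, hk, hWk, he, hv⟩ := sym0_diag W hW
  have hk' : k.1ᵀ * k.1 = 1 := by
    exact mul_eq_one_comm.1 hk
  have h1 : ∀ s, c s = act (h * k) (sg (s • z)) := by
    intro s
    apply Subtype.ext
    show (c s).1 = (h * k).1 * (sg (s • z)).1 * (h * k).1ᵀ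
    rw [hc s, TC2_mul, he s]
  have h2 : ∀ s, h.1 * (W * NormedSpace.exp (s • W)) * h.1ᵀ = gvel (h * k) z s := by
    intro s
    rw [gvel, TC2_mul, hv s]
  have h3 : (W * W).trace = spd (act (h * k) (sg (s • z))) (gvel (h * k) z s) ^ 2 := by
    rw [TC2_spd]
    conv_lhs => rw [hWk]
    generalize (2 : ℝ) • dm z = D
    calc (k.1 * D * k.1ᵀ * (k.1 * D * k.1ᵀ)).trace
        = (k.1 * (D * (k.1ᵀ * k.1) * D * k.1ᵀ)).trace := by simp only [Matrix.mul_assoc]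
      _ = (D * (k.1ᵀ * k.1) * D * k.1ᵀ * k.1).trace := Matrix.trace_mul_comm _ _
      _ = (D * (k.1ᵀ * k.1) * D * (k.1ᵀ * k.1)).trace := by simp only [Matrix.mul_assoc]
      _ = (D * D).trace := by rw [hk', Matrix.mul_one, Matrix.mul_one]
  have h4 : (fun s => ξ (c s) (h.1 * (W * NormedSpace.exp (s • W)) * h.1ᵀ)) =
      fun s => ξ (act (h * k) (sg (s • z))) (gvel (h * k) z s) := by
    funext s
    rw [h1 s, h2 s]
  rw [h4, h1 s, h2 s, h3]
  exact hG (h * k) z s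

end LibNC38
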