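import Pool.Agent.LibNT38.TA2
import Pool.Agent.LibNT38.TC2

set_option autoImplicit false

open Matrix MeasureTheory Topology Filter
open scoped Matrix.Norms.Elementwise

namespace LibNC38

private theorem TJ_iff {n : ℕ} {f : ℝ → Mt n} {f' : Mt n} {s : ℝ} :
    HasDerivAt f f' s ↔ ∀ i j, HasDerivAt (fun x => f x i j) (f' i j) s := by
  have h1 : HasDerivAt f f' s ↔ ∀ i, HasDerivAt (fun x => f x i) (f' i) s := hasDerivAt_pi
  rw [h1]
  exact forall_congr' fun i => hasDerivAt_pi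

private theorem TJ_mul {n : ℕ} {f g : ℝ → Mt n} {f' g' : Mt n} {s : ℝ}
    (hf : HasDerivAt f f' s) (hg : HasDerivAt g g' s) :
    HasDerivAt (fun x => f x * g x) (f' * g s + f s * g') s := by
  rw [TJ_iff]
  intro i j
  have h1 : ∀ k ∈ (Finset.univ : Finset (Fin n)),
      HasDerivAt (fun x => f x i k * g x k j) (f' i k * g s k j + f s i k * g' k j) s :=
    fun k _ => (TJ_iff.1 hf i k).mul (TJ_iff.1 hg k j)
  have h2 := HasDerivAt.fun_sum h1
  have h3 : (f' * g s + f s * g') i j = ∑ k, (f' i k * g s k j + f s i k * g' k j) := by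
    rw [Matrix.add_apply, Matrix.mul_apply, Matrix.mul_apply, Finset.sum_add_distrib]
  rw [h3]
  simpa only [Matrix.mul_apply] using h2

private theorem TJ_trace {n : ℕ} {f : ℝ → Mt n} {f' : Mt n} {s : ℝ} (hf : HasDerivAt f f' s) :
    HasDerivAt (fun x => (f x).trace) f'.trace s := by
  simp only [Matrix.trace, Matrix.diag]
  exact HasDerivAt.fun_sum fun k _ => TJ_iff.1 hf k k

private theorem TJ_conj {n : ℕ} (A B : Mt n) {f : ℝ → Mt n} {f' : Mt n} {s : ℝ}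
    (hf : HasDerivAt f f' s) : HasDerivAt (fun x => A * f x * B) (A * f' * B) s := by
  have h1 := TJ_mul (TJ_mul (hasDerivAt_const s A) hf) (hasDerivAt_const s B)
  simpa using h1

/-- Row TJ. The formula. -/
theorem lie_formula {n : ℕ} (κ : PD n → Fm n) (c0 : ℝ) (ξ : PD n → Mt n →ₗ[ℝ] ℝ)
    (hG : GD κ c0 ξ) (U : Set (Mt n)) (Y : Mt n → Mt n) (hU : IsOpen U) (hUp : ∀ p : PD n, p.1 ∈ U)
    (hY2 : ContDiffOn ℝ 2 Y U)
    (hY : ∀ (p : PD n) (v : Mt n), IsTan p v → ξ p v = 2 * (p.1⁻¹ * Y p.1 * (p.1⁻¹ * v)).trace)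
    (p : PD n) (v : Mt n) (hv : IsTan p v) : κ p v v = c0 * gF p v v + LieG Y p.1 v := by
  set h := tch p with hh
  set hi : Mt n := h⁻¹.1 with hhi
  set W : Mt n := hi * v * hiᵀ with hW
  have e1 : hi * h.1 = 1 := congrArg Subtype.val (inv_mul_cancel h)
  have e2 : h.1 * hi = 1 := congrArg Subtype.val (mul_inv_cancel h)
  have e3 : hiᵀ * h.1ᵀ = 1 := by rw [← Matrix.transpose_mul, e2, Matrix.transpose_one]
  have e4 : h.1ᵀ * hiᵀ = 1 := by rw [← Matrix.transpose_mul, e1, Matrix.transpose_one]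
  have hp : p.1 = h.1 * h.1ᵀ := (tch_mul p).symm
  have hPi : p.1⁻¹ = hiᵀ * hi := by
    apply Matrix.inv_eq_left_inv
    rw [hp]
    calc hiᵀ * hi * (h.1 * h.1ᵀ) = hiᵀ * (hi * h.1) * h.1ᵀ := by simp only [Matrix.mul_assoc]
      _ = 1 := by rw [e1, Matrix.mul_one, e3]
  have hWs : Wᵀ = W := by
    rw [hW, Matrix.transpose_mul, Matrix.transpose_mul, Matrix.transpose_transpose, hv.1,
      Matrix.mul_assoc]
  have hWt : W.trace = 0 := by
    rw [hW, Matrix.trace_mul_comm, ← Matrix.mul_assoc, ← hPi]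
    exact hv.2
  have hhW : h.1 * W * h.1ᵀ = v := by
    rw [hW]
    calc h.1 * (hi * v * hiᵀ) * h.1ᵀ = (h.1 * hi) * v * (hiᵀ * h.1ᵀ) := by
          simp only [Matrix.mul_assoc]
      _ = v := by rw [e2, e3, Matrix.one_mul, Matrix.mul_one]
  obtain ⟨c, hc⟩ := geo_ex h W ⟨hWs, hWt⟩
  have hexp0 : (NormedSpace.exp ((0 : ℝ) • W) : Mt n) = 1 := by
    rw [zero_smul, NormedSpace.exp_zero]
  have hc0 : c 0 = p := by
    apply Subtype.ext
    rw [hc 0, hexp0, Matrix.mul_one, ← hp]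
  have hg := geo_mat κ c0 ξ hG h W ⟨hWs, hWt⟩ c hc 0
  rw [hexp0, Matrix.mul_one, hhW, hc0] at hg
  -- the inverse of the exponential
  have hcomm : ∀ s : ℝ, W * NormedSpace.exp (s • W) = NormedSpace.exp (s • W) * W := by
    intro s
    have : Commute W (s • W) := (Commute.refl W).smul_right s
    exact (this.exp_right).eq
  have hei : ∀ s : ℝ, (NormedSpace.exp (s • (-W)) : Mt n) * NormedSpace.exp (s • W) = 1 := by
    intro s
    have h1 : s • (-W) = -(s • W) := by rw [smul_neg]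
    rw [h1, Matrix.exp_neg]
    exact Matrix.nonsing_inv_mul _ ((Matrix.isUnit_iff_isUnit_det _).1 (Matrix.isUnit_exp (s • W)))
  have hci : ∀ s : ℝ, (c s).1⁻¹ = hiᵀ * NormedSpace.exp (s • (-W)) * hi := by
    intro s
    apply Matrix.inv_eq_left_inv
    rw [hc s]
    calc hiᵀ * NormedSpace.exp (s • (-W)) * hi * (h.1 * NormedSpace.exp (s • W) * h.1ᵀ)
        = hiᵀ * (NormedSpace.exp (s • (-W)) * ((hi * h.1) * NormedSpace.exp (s • W))) * h.1ᵀ := by
          simp only [Matrix.mul_assoc]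
      _ = 1 := by rw [e1, Matrix.one_mul, hei, Matrix.mul_one, e3]
  -- `c⁻¹ c'` is constant
  have hcc : ∀ s : ℝ, (c s).1⁻¹ * (h.1 * (W * NormedSpace.exp (s • W)) * h.1ᵀ) =
      hiᵀ * W * h.1ᵀ := by
    intro s
    rw [hci, hcomm]
    calc hiᵀ * NormedSpace.exp (s • (-W)) * hi * (h.1 * (NormedSpace.exp (s • W) * W) * h.1ᵀ)
        = hiᵀ * ((NormedSpace.exp (s • (-W)) * ((hi * h.1) * NormedSpace.exp (s • W))) * W) *
            h.1ᵀ := by simp only [Matrix.mul_assoc]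
      _ = hiᵀ * W * h.1ᵀ := by rw [e1, Matrix.one_mul, hei, Matrix.one_mul]
  have htan : ∀ s : ℝ, IsTan (c s) (h.1 * (W * NormedSpace.exp (s • W)) * h.1ᵀ) := by
    intro s
    refine ⟨?_, ?_⟩
    · have h1 : (NormedSpace.exp (s • W) : Mt n)ᵀ = NormedSpace.exp (s • W) := by
        rw [← Matrix.exp_transpose, Matrix.transpose_smul, hWs]
      rw [Matrix.transpose_mul, Matrix.transpose_mul, Matrix.transpose_mul,
        Matrix.transpose_transpose, hWs, h1, ← hcomm]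
      simp only [Matrix.mul_assoc]
    · rw [hcc, Matrix.trace_mul_comm, ← Matrix.mul_assoc, e4, Matrix.one_mul, hWt]
  have hRv : hiᵀ * W * h.1ᵀ = p.1⁻¹ * v := by
    rw [hW, hPi]
    calc hiᵀ * (hi * v * hiᵀ) * h.1ᵀ = hiᵀ * hi * v * (hiᵀ * h.1ᵀ) := by
          simp only [Matrix.mul_assoc]
      _ = hiᵀ * hi * v := by rw [e3, Matrix.mul_one]
  have hval : ∀ s : ℝ, ξ (c s) (h.1 * (W * NormedSpace.exp (s • W)) * h.1ᵀ) =
      2 * (hiᵀ * NormedSpace.exp (s • (-W)) * hi * Y (c s).1 * (p.1⁻¹ * v)).trace := by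
    intro s
    rw [hY _ _ (htan s), hcc, hRv, hci]
  -- derivatives
  have hd1 : HasDerivAt (fun s : ℝ => hiᵀ * NormedSpace.exp (s • (-W)) * hi)
      (hiᵀ * (-W) * hi) 0 := by
    have h1 := exp_deriv (-W) 0
    rw [zero_smul, NormedSpace.exp_zero, Matrix.mul_one] at h1
    exact TJ_conj hiᵀ hi h1
  have hd2 : HasDerivAt (fun s : ℝ => (c s).1) v 0 := by
    have h1 := exp_deriv W 0
    rw [hexp0, Matrix.mul_one] at h1
    have h2 := TJ_conj h.1 h.1ᵀ h1
    rw [hhW] at h2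
    have h3 : (fun s : ℝ => (c s).1) = fun s => h.1 * NormedSpace.exp (s • W) * h.1ᵀ := by
      funext s; exact hc s
    rw [h3]
    exact h2
  have hd3 : HasDerivAt (fun s : ℝ => Y (c s).1) (fderiv ℝ Y p.1 v) 0 := by
    have h1 : DifferentiableAt ℝ Y p.1 :=
      ((hY2.contDiffAt (hU.mem_nhds (hUp p))).differentiableAt (by norm_num))
    have h2 : HasFDerivAt Y (fderiv ℝ Y p.1) (c 0).1 := by
      rw [hc0]; exact h1.hasFDerivAt
    exact h2.comp_hasDerivAt 0 hd2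
  have hd4 := (TJ_trace (TJ_mul (TJ_mul hd1 hd3) (hasDerivAt_const (0 : ℝ) (p.1⁻¹ * v)))).const_mul 2
  have h5 : (fun s : ℝ => ξ (c s) (h.1 * (W * NormedSpace.exp (s • W)) * h.1ᵀ)) =
      fun s : ℝ => 2 * (hiᵀ * NormedSpace.exp (s • (-W)) * hi * Y (c s).1 * (p.1⁻¹ * v)).trace := by
    funext s; exact hval s
  rw [h5] at hg
  have h6 := hg.unique hd4
  rw [zero_smul, NormedSpace.exp_zero, Matrix.mul_one, Matrix.mul_zero, add_zero, hc0, ← hPi] at h6
  have h7 : hiᵀ * -W * hi = -(p.1⁻¹ * v * p.1⁻¹) := by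
    rw [hPi, hW, Matrix.mul_neg, Matrix.neg_mul]
    simp only [Matrix.mul_assoc]
  have h8 : (W * W).trace = gF p v v := by
    rw [gF_apply, hPi, hW]
    have : hiᵀ * hi * v * (hiᵀ * hi * v) = hiᵀ * (hi * v * hiᵀ * (hi * v)) := by
      simp only [Matrix.mul_assoc]
    rw [this]
    conv_rhs => rw [Matrix.trace_mul_comm]
    simp only [Matrix.mul_assoc]
  rw [h7, h8, Matrix.add_mul, Matrix.trace_add, Matrix.neg_mul, Matrix.neg_mul,
    Matrix.trace_neg] at h6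
  have h9 : (p.1⁻¹ * v * p.1⁻¹ * Y p.1 * (p.1⁻¹ * v)).trace =
      (p.1⁻¹ * Y p.1 * (p.1⁻¹ * v * (p.1⁻¹ * v))).trace := by
    have : p.1⁻¹ * v * p.1⁻¹ * Y p.1 * (p.1⁻¹ * v) = (p.1⁻¹ * v) * (p.1⁻¹ * Y p.1 * (p.1⁻¹ * v)) := by
      simp only [Matrix.mul_assoc]
    rw [this, Matrix.trace_mul_comm]
    simp only [Matrix.mul_assoc]
  rw [h9] at h6
  rw [LieG]
  linarith

end LibNC38
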