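import Pool.Agent.LibNT38.TH3
import Pool.Agent.LibNT38.TI
import Pool.Agent.LibNT38.TJ

set_option autoImplicit false

open Matrix MeasureTheory Topology Filter
open scoped Matrix.Norms.Elementwise

namespace LibNC38

/-- For a tensor of class `C^m`, `m ≥ 2` (possibly `∞`), the weak form of triviality implies the
classical one, with a vector field of class `C^m`. -/
theorem triv_reg {n : ℕ} (m : ℕ∞) (hm : 2 ≤ m) (Γ : Subgroup (SL n)) (κ : PD n → Fm n)
    (hκ : CmF m κ) (hT : Triv Γ κ) : ∃ (c : ℝ) (Y : Mt n → Mt n), ContDiffOn ℝ m Y (PU n) ∧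
      (∀ p : PD n, IsTan p (Y p.1)) ∧
      (∀ γ ∈ Γ, ∀ p : PD n, Y (act γ p).1 = γ.1 * Y p.1 * γ.1ᵀ) ∧
      ∀ (p : PD n) (v : Mt n), IsTan p v → κ p v v = c * gF p v v + LieG Y p.1 v := by
  obtain ⟨c, ξ, _, hξ, hG⟩ := hT
  obtain ⟨Y, hY2, hYT, hY⟩ := glob_Y κ hκ c ξ hG
  refine ⟨c, Y, hY2, hYT, fun γ hγ p =>
    Y_equiv ξ (fun p => Y p.1) hYT hY γ (fun p v hv => hξ γ hγ p v hv) p,
    fun p v hv => lie_formula κ c ξ hG (PU n) Y PU_open mem_PU (hY2.of_le ?_) hY p v hv⟩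
  exact WithTop.coe_le_coe.2 hm

/-- For a tensor of class `C²`, the weak form of triviality implies the classical one, with a vector
field of class `C²`. -/
theorem triv2_of_triv {n : ℕ} (Γ : Subgroup (SL n)) (κ : PD n → Fm n) (hκ : LibNC27.C2F κ)
    (hT : Triv Γ κ) : Triv2 Γ κ := by
  obtain ⟨c, Y, h1, h2, h3, h4⟩ := triv_reg 2 le_rfl Γ κ hκ hT
  exact ⟨c, PU n, Y, PU_open, mem_PU, h1, h2, h3, h4⟩

end LibNC38
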