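import Pool.Agent.LibNE38.E4

set_option autoImplicit false

open Matrix MeasureTheory Topology Filter
open scoped Matrix.Norms.Elementwise

namespace LibNC38

/-- the Lie derivative `(L_Y g)(v, v)` of the symmetric metric `g_p(v, w) = tr (p⁻¹ v p⁻¹ w)` along
the vector field `Y`: `2 g(D_v Y, v) + (D_Y g)(v, v)`, where `D_Y g (v, v) = - 2 tr (p⁻¹ Y p⁻¹ v p⁻¹ v)` -/
noncomputable def LieG {n : ℕ} (Y : Mt n → Mt n) (p v : Mt n) : ℝ :=
  2 * (p⁻¹ * fderiv ℝ Y p v * (p⁻¹ * v)).trace - 2 * (p⁻¹ * Y p * (p⁻¹ * v * (p⁻¹ * v))).trace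

/-- `κ` is a trivial deformation of the symmetric metric `g`: `κ = c g + L_Y g` with a constant `c`
and a `Γ`-invariant vector field `Y` of class `C²` on the symmetric space (that is, with an
extension of class `C²` to an open neighbourhood `U` in the space of all matrices). -/
def Triv2 {n : ℕ} (Γ : Subgroup (SL n)) (κ : PD n → Fm n) : Prop :=
  ∃ (c : ℝ) (U : Set (Mt n)) (Y : Mt n → Mt n), IsOpen U ∧ (∀ p : PD n, p.1 ∈ U) ∧
    ContDiffOn ℝ 2 Y U ∧ (∀ p : PD n, IsTan p (Y p.1)) ∧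
    (∀ γ ∈ Γ, ∀ p : PD n, Y (act γ p).1 = γ.1 * Y p.1 * γ.1ᵀ) ∧
    ∀ (p : PD n) (v : Mt n), IsTan p v → κ p v v = c * gF p v v + LieG Y p.1 v

/-- `κ` is a tensor of class `C^m` (`C2F` for `m = 2`): it extends to a tensor with `C^m`
coefficients on an open neighbourhood of the symmetric space in the space of all matrices -/
def CmF {n : ℕ} (m : WithTop ℕ∞) (κ : PD n → Fm n) : Prop :=
  ∃ (U : Set (Mt n)) (κ' : Mt n → Fm n), IsOpen U ∧ (∀ p : PD n, p.1 ∈ U ∧ κ' p.1 = κ p) ∧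
    ∀ v w, ContDiffOn ℝ m (fun p => κ' p v w) U

/-- symmetric matrices with trace zero -/
def Sym0 {n : ℕ} (W : Mt n) : Prop := Wᵀ = W ∧ W.trace = 0

/-- third clause of `Triv`: `d/ds ξ(c') = κ(c', c') - c |c'|²` along the geodesics -/
def GD {n : ℕ} (κ : PD n → Fm n) (c : ℝ) (ξ : PD n → Mt n →ₗ[ℝ] ℝ) : Prop :=
  ∀ (g : SL n) (z : V0 n) (s : ℝ),
    HasDerivAt (fun s => ξ (act g (sg (s • z))) (gvel g z s))
      (κ (act g (sg (s • z))) (gvel g z s) (gvel g z s) -
        c * spd (act g (sg (s • z))) (gvel g z s) ^ 2) s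

section tools

variable {X : Type*} [NormedAddCommGroup X] [NormedSpace ℝ X] {n : ℕ} {m : WithTop ℕ∞}

theorem cd_iff {f : X → Mt n} {s : Set X} :
    ContDiffOn ℝ m f s ↔ ∀ i j, ContDiffOn ℝ m (fun x => f x i j) s := by
  have h1 : ContDiffOn ℝ m f s ↔ ∀ i, ContDiffOn ℝ m (fun x => f x i) s := contDiffOn_pi
  rw [h1]
  exact forall_congr' fun i => contDiffOn_pi

theorem cd_entry {f : X → Mt n} {s : Set X} (hf : ContDiffOn ℝ m f s) (i j : Fin n) :
    ContDiffOn ℝ m (fun x => f x i j) s := cd_iff.1 hf i j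

theorem cd_mul {f g : X → Mt n} {s : Set X} (hf : ContDiffOn ℝ m f s) (hg : ContDiffOn ℝ m g s) :
    ContDiffOn ℝ m (fun x => f x * g x) s := by
  rw [cd_iff]
  intro i j
  simp only [Matrix.mul_apply]
  exact ContDiffOn.sum fun k _ => (cd_entry hf i k).mul (cd_entry hg k j)

theorem cd_transpose {f : X → Mt n} {s : Set X} (hf : ContDiffOn ℝ m f s) :
    ContDiffOn ℝ m (fun x => (f x)ᵀ) s := by
  rw [cd_iff]
  intro i j
  exact cd_entry hf j i

theorem cd_trace {f : X → Mt n} {s : Set X} (hf : ContDiffOn ℝ m f s) :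
    ContDiffOn ℝ m (fun x => (f x).trace) s := by
  simp only [Matrix.trace, Matrix.diag]
  exact ContDiffOn.sum fun k _ => cd_entry hf k k

theorem cd_det {f : X → Mt n} {s : Set X} (hf : ContDiffOn ℝ m f s) :
    ContDiffOn ℝ m (fun x => (f x).det) s := by
  simp only [Matrix.det_apply]
  refine ContDiffOn.sum fun σ _ => ContDiffOn.const_smul _ ?_
  exact contDiffOn_prod fun i _ => cd_entry hf _ _

/-- a family of linear forms with `C^m` coefficients, applied to a `C^m` vector -/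
theorem cd_lin {η : X → Mt n →ₗ[ℝ] ℝ} {v : X → Mt n} {s : Set X}
    (hη : ∀ w, ContDiffOn ℝ m (fun x => η x w) s) (hv : ContDiffOn ℝ m v s) :
    ContDiffOn ℝ m (fun x => η x (v x)) s := by
  have h1 : (fun x => η x (v x)) = fun x => ∑ a, ∑ b, v x a b * η x (Matrix.single a b (1 : ℝ)) := by
    funext x
    conv_lhs => rw [Matrix.matrix_eq_sum_single (v x)]
    simp only [map_sum]
    refine Finset.sum_congr rfl fun a _ => Finset.sum_congr rfl fun b _ => ?_
    have : Matrix.single a b (v x a b) = v x a b • Matrix.single a b (1 : ℝ) := by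
      rw [Matrix.smul_single, smul_eq_mul, mul_one]
    rw [this, map_smul, smul_eq_mul]
  rw [h1]
  exact ContDiffOn.sum fun a _ => ContDiffOn.sum fun b _ => (cd_entry hv a b).mul (hη _)

/-- the same for bilinear forms -/
theorem cd_bil {K : X → Fm n} {v w : X → Mt n} {s : Set X}
    (hK : ∀ a b, ContDiffOn ℝ m (fun x => K x a b) s) (hv : ContDiffOn ℝ m v s)
    (hw : ContDiffOn ℝ m w s) : ContDiffOn ℝ m (fun x => K x (v x) (w x)) s := by
  refine cd_lin (η := fun x => K x (v x)) (fun b => ?_) hw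
  refine cd_lin (η := fun x => (LinearMap.flip (K x)) b) (fun a => ?_) hv
  exact hK a b

theorem cd_inv {f : X → Mt n} {s : Set X} (hf : ContDiffOn ℝ m f s) (h0 : ∀ x ∈ s, (f x).det ≠ 0) :
    ContDiffOn ℝ m (fun x => (f x)⁻¹) s := by
  rw [cd_iff]
  intro i j
  have h1 : (fun x => (f x)⁻¹ i j) = fun x => ((f x).det)⁻¹ * ((f x).updateRow j (Pi.single i 1)).det := by
    funext x
    rw [Matrix.inv_def, Matrix.smul_apply, smul_eq_mul, Ring.inverse_eq_inv', Matrix.adjugate_apply]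
  rw [h1]
  refine ((cd_det hf).inv h0).mul (cd_det ?_)
  rw [cd_iff]
  intro a b
  simp only [Matrix.updateRow_apply]
  split_ifs
  · exact contDiffOn_const
  · exact cd_entry hf a b

end tools

end LibNC38
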