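import Pool.Agent.LibNT38.T0

set_option autoImplicit false

open Matrix MeasureTheory Topology Filter
open scoped Matrix.Norms.Elementwise ContDiff

namespace LibNC38


private def TA1_Op (n : ℕ) : Type := Matrix (Fin n) (Fin n) ℝ

private noncomputable instance TA1_nr (n : ℕ) : NormedRing (TA1_Op n) :=
  Matrix.linftyOpNormedRing (n := Fin n) (α := ℝ)

private noncomputable instance TA1_na (n : ℕ) : NormedAlgebra ℝ (TA1_Op n) :=
  Matrix.linftyOpNormedAlgebra (n := Fin n) (R := ℝ) (α := ℝ)

private noncomputable def TA1_e (n : ℕ) : Mt n ≃ₗ[ℝ] TA1_Op n :=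
  { toFun := fun A => A
    invFun := fun A => A
    map_add' := fun _ _ => rfl
    map_smul' := fun _ _ => rfl
    left_inv := fun _ => rfl
    right_inv := fun _ => rfl }

private theorem TA1_fin (n : ℕ) : FiniteDimensional ℝ (TA1_Op n) :=
  LinearEquiv.finiteDimensional (TA1_e n)

private theorem TA1_exp (n : ℕ) (A : Mt n) :
    NormedSpace.exp (TA1_e n A) = TA1_e n (NormedSpace.exp A) := rfl

/-- Row TA1. The matrix exponential is of class `C²` for the elementwise norm.
PLAN. For the norm of `Matrix.linftyOpNormedRing` (operator norm) this is `NormedSpace.exp_analytic`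
(`AnalyticAt ℝ exp x` for all `x`, hence `ContDiff ℝ 2`). Transfer to the elementwise norm: the
identity between the two normed spaces is linear, hence continuous and smooth in both directions
(finite dimension: `LinearMap.toContinuousLinearMap` / `LinearMap.continuous_of_finiteDimensional`).
Convenient: introduce a type synonym `def MtOp (n : ℕ) := Matrix (Fin n) (Fin n) ℝ` with the operator
norm instances and a linear equivalence `Mt n ≃ₗ[ℝ] MtOp n` (identity); `NormedSpace.exp` on `MtOp n`
and on `Mt n` agree (same ring and same topology; `rfl`, or both are the sum of the same series). -/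
theorem exp_smooth {n : ℕ} : ContDiff ℝ ω (fun A : Mt n => NormedSpace.exp A) := by
  have hfin : FiniteDimensional ℝ (TA1_Op n) := TA1_fin n
  have hcomp : CompleteSpace (TA1_Op n) := FiniteDimensional.complete ℝ (TA1_Op n)
  have h1 : ContDiff ℝ ω (fun B : TA1_Op n => NormedSpace.exp B) := by
    rw [contDiff_iff_contDiffAt]
    intro B
    exact (NormedSpace.exp_analytic (𝕂 := ℝ) B).contDiffAt
  have h2 : ContDiff ℝ ω (fun A : Mt n => TA1_e n A) :=
    (LinearMap.toContinuousLinearMap (TA1_e n).toLinearMap).contDiff
  have h3 : ContDiff ℝ ω (fun B : TA1_Op n => (TA1_e n).symm B) :=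
    (LinearMap.toContinuousLinearMap (TA1_e n).symm.toLinearMap).contDiff
  have h4 := h3.comp (h1.comp h2)
  exact h4

theorem exp_smoothm {n : ℕ} {m : WithTop ℕ∞} : ContDiff ℝ m (fun A : Mt n => NormedSpace.exp A) :=
  exp_smooth.of_le le_top

end LibNC38
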