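import Pool.Agent.LibNT38.T0

set_option autoImplicit false

open Matrix MeasureTheory Topology Filter
open scoped Matrix.Norms.Elementwise

namespace LibNC38

/-- Row TB2. `det exp = exp trace` for symmetric matrices.
PLAN. Spectral theorem (see `polar` in `LibNC38/B7.lean`): `Z = U diag(l) Uᵀ`, `U Uᵀ = 1`, so
`exp Z = U diag(e^l) Uᵀ` (`Matrix.exp_conj`, `Matrix.exp_diagonal`), determinant `∏ e^(l i)`,
trace `∑ l i`. -/
theorem det_exp_symm {n : ℕ} (Z : Mt n) (hZ : Zᵀ = Z) :
    (NormedSpace.exp Z).det = Real.exp Z.trace := by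
  have hH : Matrix.IsHermitian Z := by
    unfold Matrix.IsHermitian
    rw [Matrix.conjTranspose_eq_transpose_of_trivial]
    exact hZ
  set U : Matrix (Fin n) (Fin n) ℝ := (hH.eigenvectorUnitary : Matrix (Fin n) (Fin n) ℝ) with hU
  have hUU : U * star U = 1 := Unitary.mul_star_self_of_mem hH.eigenvectorUnitary.2
  have hUinv : U⁻¹ = star U := Matrix.inv_eq_right_inv hUU
  have hUunit : IsUnit U := by
    rw [Matrix.isUnit_iff_isUnit_det]
    exact Matrix.isUnit_det_of_right_inverse hUU
  have hs : Z = U * diagonal hH.eigenvalues * U⁻¹ := by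
    rw [hUinv]
    have h := hH.spectral_theorem
    rw [Unitary.conjStarAlgAut_apply] at h
    have h2 : (RCLike.ofReal ∘ hH.eigenvalues : Fin n → ℝ) = hH.eigenvalues := by
      funext i
      simp
    rw [h2] at h
    exact h
  have htr : Z.trace = ∑ i, hH.eigenvalues i := by
    have h := hH.trace_eq_sum_eigenvalues
    simpa using h
  have hexp : NormedSpace.exp Z = U * diagonal (fun i => Real.exp (hH.eigenvalues i)) * U⁻¹ := by
    have h3 : NormedSpace.exp (diagonal hH.eigenvalues : Matrix (Fin n) (Fin n) ℝ) =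
        diagonal (fun i => Real.exp (hH.eigenvalues i)) := by
      rw [Matrix.exp_diagonal]
      congr 1
      rw [Pi.exp_def]
      funext i
      rw [Real.exp_eq_exp_ℝ]
    rw [← h3, ← Matrix.exp_conj _ _ hUunit, ← hs]
  have hdU : U.det * (U⁻¹).det = 1 := by
    rw [← Matrix.det_mul, hUinv, hUU, Matrix.det_one]
  rw [hexp, Matrix.det_mul, Matrix.det_mul, Matrix.det_diagonal, htr, Real.exp_sum]
  calc U.det * (∏ i, Real.exp (hH.eigenvalues i)) * (U⁻¹).det
      = (U.det * (U⁻¹).det) * ∏ i, Real.exp (hH.eigenvalues i) := by ring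
    _ = ∏ i, Real.exp (hH.eigenvalues i) := by rw [hdU, one_mul]

end LibNC38
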