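import Pool.Agent.LibNT38.TB1
import Pool.Agent.LibNT38.TB2

set_option autoImplicit false

open Matrix MeasureTheory Topology Filter
open scoped Matrix.Norms.Elementwise ContDiff

namespace LibNC38

/-- Row TB3. The local logarithm. From `log_ex`: symmetric: `exp ((L x)ᵀ) = xᵀ = x`
(`Matrix.exp_transpose`) and `L (exp Z) = Z` for `Z = (L x)ᵀ ∈ N'`; trace: `det_exp_symm`. -/
theorem log_sym {n : ℕ} : ∃ (N N' : Set (Mt n)) (L : Mt n → Mt n), IsOpen N ∧ IsOpen N' ∧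
    (0 : Mt n) ∈ N' ∧ ContDiffOn ℝ ω L N ∧ (∀ x ∈ N, NormedSpace.exp (L x) = x) ∧
    (∀ Z ∈ N', NormedSpace.exp Z ∈ N ∧ L (NormedSpace.exp Z) = Z) ∧
    (∀ x ∈ N, xᵀ = x → x.det = 1 → Sym0 (L x)) := by
  obtain ⟨N, N', L, hN, hN', h0, hL, hT, hx, hZ⟩ := log_ex (n := n)
  refine ⟨N, N', L, hN, hN', h0, hL, fun x hxN => (hx x hxN).2, hZ, ?_⟩
  intro x hxN hsym hdet
  obtain ⟨h1, h2⟩ := hx x hxN
  have h3 : NormedSpace.exp ((L x)ᵀ) = x := by
    rw [Matrix.exp_transpose, h2, hsym]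
  have h4 : (L x)ᵀ = L x := by
    have h5 := (hZ _ (hT _ h1)).2
    rw [h3] at h5
    exact h5.symm
  refine ⟨h4, ?_⟩
  have h6 := det_exp_symm (L x) h4
  rw [h2, hdet] at h6
  have h7 : Real.exp (L x).trace = Real.exp 0 := by rw [Real.exp_zero]; exact h6.symm
  exact Real.exp_injective h7

end LibNC38
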