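import Pool.Agent.LibNT38.T0

set_option autoImplicit false

open Matrix MeasureTheory Topology Filter
open scoped Matrix.Norms.Elementwise

namespace LibNC38

private theorem TC1_sign {n : ℕ} (U : Matrix (Fin n) (Fin n) ℝ) :
    (∏ i : Fin n, (if i.val = 0 then U.det else 1)) = U.det := by
  cases n with
  | zero => simp [Matrix.det_fin_zero]
  | succ m =>
    rw [Fin.prod_univ_succ]
    simp

/-- the exponential of a diagonal matrix -/
private theorem TC1_expdiag {n : ℕ} (v : Fin n → ℝ) :
    NormedSpace.exp (Matrix.diagonal v : Mt n) = Matrix.diagonal fun i => Real.exp (v i) := by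
  have h := Matrix.exp_diagonal (𝔸 := ℝ) v
  refine h.trans ?_
  congr 1
  funext i
  rw [Pi.coe_exp, Real.exp_eq_exp_ℝ]

/-- Row TC1. A symmetric matrix with trace zero is `k (2 dm z) kᵀ`, `k` orthogonal with determinant
one; then `exp (s W) = k (sg (s z)) kᵀ`, and `W exp (s W) = k (vel (s z) z) kᵀ`.
PLAN. Copy the proof of `polar` (`LibNC38/B7.lean`) for the eigenvalues `l i` of `W`, `z i = l i / 2`
(sum = trace / 2 = 0: `Matrix.IsHermitian.trace_eq_sum_eigenvalues`). Then `Matrix.exp_conj` and
`Matrix.exp_diagonal`; `flat_facts.1 : (sg z).1 = diagonal (exp (2 z i))`. -/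
theorem sym0_diag {n : ℕ} (W : Mt n) (hW : Sym0 W) : ∃ (k : SL n) (z : V0 n),
    k.1 * k.1ᵀ = 1 ∧ W = k.1 * ((2 : ℝ) • dm z) * k.1ᵀ ∧
    (∀ s : ℝ, NormedSpace.exp (s • W) = k.1 * (sg (s • z)).1 * k.1ᵀ) ∧
    (∀ s : ℝ, W * NormedSpace.exp (s • W) = k.1 * vel (s • z) z * k.1ᵀ) := by
  classical
  have hq : W.IsHermitian := by
    change Wᴴ = W
    rw [Matrix.conjTranspose_eq_transpose_of_trivial]
    exact hW.1
  set lam : Fin n → ℝ := hq.eigenvalues with hlam
  set U : Matrix (Fin n) (Fin n) ℝ := (hq.eigenvectorUnitary : Matrix (Fin n) (Fin n) ℝ) with hU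
  have hst : star U = Uᵀ := by
    rw [Matrix.star_eq_conjTranspose, Matrix.conjTranspose_eq_transpose_of_trivial]
  have hUU : U * Uᵀ = 1 := by
    rw [← hst]; exact Unitary.coe_mul_star_self hq.eigenvectorUnitary
  have hspec : W = U * Matrix.diagonal lam * Uᵀ := by
    have h := hq.spectral_theorem
    rw [Unitary.conjStarAlgAut_apply] at h
    rw [← hst]
    exact h
  have hdU : U.det * U.det = 1 := by
    have := congrArg Matrix.det hUU
    rwa [Matrix.det_mul, Matrix.det_transpose, Matrix.det_one] at this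
  set e : Fin n → ℝ := fun i => if i.val = 0 then U.det else 1 with he
  have hee : ∀ i, e i * e i = 1 := by
    intro i
    simp only [he]
    split_ifs
    · exact hdU
    · norm_num
  have hde : (U * Matrix.diagonal e).det = 1 := by
    rw [Matrix.det_mul, Matrix.det_diagonal, TC1_sign U, hdU]
  have htr : ∑ i, lam i = 0 := by
    have h := hq.trace_eq_sum_eigenvalues
    rw [hW.2] at h
    simpa using h.symm
  have hsum : ∑ i, lam i / 2 = 0 := by
    rw [← Finset.sum_div, htr, zero_div]
  set K : Matrix (Fin n) (Fin n) ℝ := U * Matrix.diagonal e with hK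
  have hKK : K * Kᵀ = 1 := by
    rw [hK, Matrix.transpose_mul, Matrix.diagonal_transpose, Matrix.mul_assoc,
      ← Matrix.mul_assoc (Matrix.diagonal e), Matrix.diagonal_mul_diagonal]
    have : (fun i => e i * e i) = fun _ => (1 : ℝ) := funext hee
    rw [this, Matrix.diagonal_one, Matrix.one_mul, hUU]
  have hKK' : Kᵀ * K = 1 := by
    rw [mul_eq_one_comm]; exact hKK
  have hinv : K⁻¹ = Kᵀ := Matrix.inv_eq_right_inv hKK
  have hWK : W = K * Matrix.diagonal lam * Kᵀ := by
    have h2 : K * Matrix.diagonal lam * Kᵀ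
        = U * (Matrix.diagonal e * Matrix.diagonal lam * Matrix.diagonal e) * Uᵀ := by
      rw [hK, Matrix.transpose_mul, Matrix.diagonal_transpose]
      simp only [Matrix.mul_assoc]
    have h3 : (fun i => e i * lam i * e i) = lam := by
      funext i
      rw [mul_right_comm, hee, one_mul]
    rw [h2, Matrix.diagonal_mul_diagonal, Matrix.diagonal_mul_diagonal, h3]
    exact hspec
  have hexp : ∀ s : ℝ, NormedSpace.exp (s • W)
      = K * (Matrix.diagonal fun i => Real.exp (s * lam i)) * Kᵀ := by
    intro s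
    have h1 : s • W = K * Matrix.diagonal (fun i => s * lam i) * K⁻¹ := by
      rw [hinv]
      have h5 : Matrix.diagonal (fun i => s * lam i) = s • Matrix.diagonal lam := by
        rw [← Matrix.diagonal_smul]
        rfl
      rw [h5, Matrix.mul_smul, Matrix.smul_mul, ← hWK]
    have hu : IsUnit K := by
      refine ⟨⟨K, Kᵀ, hKK, hKK'⟩, rfl⟩
    rw [h1, Matrix.exp_conj K _ hu, TC1_expdiag, hinv]
  refine ⟨⟨K, hde⟩, ⟨WithLp.toLp 2 fun i => lam i / 2, hsum⟩, hKK, ?_, ?_, ?_⟩
  · change W = K * ((2 : ℝ) • Matrix.diagonal fun i => lam i / 2) * Kᵀ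
    have h6 : ((2 : ℝ) • Matrix.diagonal fun i => lam i / 2) = Matrix.diagonal lam := by
      rw [← Matrix.diagonal_smul]
      congr 1
      funext i
      change 2 * (lam i / 2) = lam i
      ring
    rw [h6]
    exact hWK
  · intro s
    rw [flat_facts.1, hexp s]
    change _ = K * (Matrix.diagonal fun i => Real.exp (2 * (s * (lam i / 2)))) * Kᵀ
    have h7 : (fun i => Real.exp (2 * (s * (lam i / 2)))) = fun i => Real.exp (s * lam i) := by
      funext i
      congr 1
      ring
    rw [h7]
  · intro s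
    rw [hexp s]
    change _ = K * (Matrix.diagonal fun i => 2 * (lam i / 2) * Real.exp (2 * (s * (lam i / 2)))) * Kᵀ
    have h8 : W * (K * (Matrix.diagonal fun i => Real.exp (s * lam i)) * Kᵀ)
        = K * (Matrix.diagonal lam * (Kᵀ * K) * (Matrix.diagonal fun i => Real.exp (s * lam i))) * Kᵀ := by
      conv_lhs => rw [hWK]
      simp only [Matrix.mul_assoc]
    rw [h8, hKK', Matrix.mul_one, Matrix.diagonal_mul_diagonal]
    have h9 : (fun i => 2 * (lam i / 2) * Real.exp (2 * (s * (lam i / 2))))
        = fun i => lam i * Real.exp (s * lam i) := by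
      funext i
      have h10 : 2 * (s * (lam i / 2)) = s * lam i := by ring
      rw [h10]
      ring
    rw [h9]

end LibNC38
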