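import Mathlib

set_option autoImplicit false

open Matrix MeasureTheory Topology Filter
open scoped Matrix.Norms.Elementwise

namespace LibNC38

/-- Row TD1. Continuity of the parametric integral. PLAN. Fix `x0 ∈ V`; the slice
`[0,1] × {x0}` is compact and contained in the open set `O` where `f` is continuous, so `|f|` is bounded
by some `C` on `[0,1] × W` for a neighbourhood `W ⊆ V` of `x0` (tube lemma
`generalized_tube_lemma`); then `intervalIntegral.continuousAt_of_dominated_interval`. -/
theorem par_cont {E G : Type} [NormedAddCommGroup E] [NormedSpace ℝ E]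
    [NormedAddCommGroup G] [NormedSpace ℝ G] [CompleteSpace G] (f : ℝ × E → G) (O : Set (ℝ × E))
    (V : Set E) (hO : IsOpen O) (hV : IsOpen V) (h : ∀ s ∈ Set.Icc (0 : ℝ) 1, ∀ x ∈ V, (s, x) ∈ O)
    (hf : ContinuousOn f O) : ContinuousOn (fun x => ∫ s in (0 : ℝ)..1, f (s, x)) V := by
  intro x0 hx0
  apply ContinuousAt.continuousWithinAt
  -- bound on a tube
  have hslice : ContinuousOn (fun s : ℝ => f (s, x0)) (Set.Icc (0 : ℝ) 1) := by
    refine hf.comp (Continuous.continuousOn (by fun_prop)) ?_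
    intro s hs
    exact h s hs x0 hx0
  obtain ⟨C, hC⟩ := isCompact_Icc.exists_bound_of_continuousOn hslice
  have hopen : IsOpen (O ∩ {p | ‖f p‖ < C + 1}) := by
    have := (continuous_norm.comp_continuousOn hf).isOpen_inter_preimage hO
      (isOpen_Iio (a := C + 1))
    exact this
  have hsub : Set.Icc (0 : ℝ) 1 ×ˢ ({x0} : Set E) ⊆ O ∩ {p | ‖f p‖ < C + 1} := by
    rintro ⟨s, x⟩ ⟨hs, hx⟩
    have hx' : x = x0 := hx
    subst hx'
    refine ⟨h s hs x hx0, ?_⟩
    have := hC s hs
    show ‖f (s, x)‖ < C + 1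
    linarith
  obtain ⟨u, v, hu, hv, hKu, hxv, huv⟩ := generalized_tube_lemma isCompact_Icc
    (isCompact_singleton (x := x0)) hopen hsub
  have hx0v : x0 ∈ v := hxv rfl
  have hnhds : ∀ᶠ x in 𝓝 x0, x ∈ V ∧ x ∈ v := by
    filter_upwards [hV.mem_nhds hx0, hv.mem_nhds hx0v] with x h1 h2
    exact ⟨h1, h2⟩
  have hioc : ∀ s ∈ Set.uIoc (0 : ℝ) 1, s ∈ Set.Icc (0 : ℝ) 1 := by
    intro s hs
    rw [Set.uIoc_of_le zero_le_one] at hs
    exact ⟨hs.1.le, hs.2⟩
  refine intervalIntegral.continuousAt_of_dominated_interval (bound := fun _ => C + 1) ?_ ?_ ?_ ?_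
  · filter_upwards [hnhds] with x hx
    have hc : ContinuousOn (fun s : ℝ => f (s, x)) (Set.uIoc (0 : ℝ) 1) := by
      refine hf.comp (Continuous.continuousOn (by fun_prop)) ?_
      intro s hs
      exact h s (hioc s hs) x hx.1
    exact hc.aestronglyMeasurable measurableSet_uIoc
  · filter_upwards [hnhds] with x hx
    refine Eventually.of_forall fun s hs => ?_
    have := huv (Set.mk_mem_prod (hKu (hioc s hs)) hx.2)
    exact (this.2 : ‖f (s, x)‖ < C + 1).le
  · exact intervalIntegrable_const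
  · refine Eventually.of_forall fun s hs => ?_
    have h1 : ContinuousAt f (s, x0) := hf.continuousAt (hO.mem_nhds (h s (hioc s hs) x0 hx0))
    exact ContinuousAt.comp (f := fun x : E => (s, x)) (x := x0) h1 (by fun_prop)

end LibNC38
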