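import Mathlib

set_option autoImplicit false

open Matrix MeasureTheory Topology Filter
open scoped Matrix.Norms.Elementwise

namespace LibNC38

/-- Row TD2. Derivative of the parametric integral. PLAN. For `x0 ∈ V` the partial derivative
`f' (s, x)` is bounded on `[0,1] × ball x0 ε` (compactness of `[0,1]`, tube lemma
`generalized_tube_lemma`); `intervalIntegral.hasFDerivAt_integral_of_dominated_of_fderiv_le`
(Mathlib `Analysis/Calculus/ParametricIntervalIntegral.lean`). -/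
theorem par_deriv {E G : Type} [NormedAddCommGroup E] [NormedSpace ℝ E]
    [NormedAddCommGroup G] [NormedSpace ℝ G] [CompleteSpace G] (f : ℝ × E → G)
    (f' : ℝ × E → E →L[ℝ] G) (O : Set (ℝ × E)) (V : Set E) (hO : IsOpen O) (hV : IsOpen V)
    (h : ∀ s ∈ Set.Icc (0 : ℝ) 1, ∀ x ∈ V, (s, x) ∈ O) (hf : ContinuousOn f O)
    (hf' : ContinuousOn f' O) (hd : ∀ y ∈ O, HasFDerivAt (fun x => f (y.1, x)) (f' y) y.2) :
    ∀ x ∈ V, HasFDerivAt (fun x => ∫ s in (0 : ℝ)..1, f (s, x)) (∫ s in (0 : ℝ)..1, f' (s, x)) x := by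
  intro x0 hx0
  have hcont : ContinuousOn (fun y => ‖f' y‖) O := hf'.norm
  have hK : IsCompact (Set.Icc (0 : ℝ) 1 ×ˢ ({x0} : Set E)) := isCompact_Icc.prod isCompact_singleton
  have hKO : Set.Icc (0 : ℝ) 1 ×ˢ ({x0} : Set E) ⊆ O := by
    rintro ⟨s, x⟩ ⟨hs, hx⟩
    have hx' : x = x0 := hx
    subst hx'
    exact h s hs x hx0
  obtain ⟨M, hM⟩ := hK.exists_bound_of_continuousOn (hf'.mono hKO)
  have hNo : IsOpen (O ∩ (fun y => ‖f' y‖) ⁻¹' (Set.Iio (M + 1))) :=
    hcont.isOpen_inter_preimage hO isOpen_Iio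
  have hKN : Set.Icc (0 : ℝ) 1 ×ˢ ({x0} : Set E) ⊆
      O ∩ (fun y => ‖f' y‖) ⁻¹' (Set.Iio (M + 1)) := by
    intro y hy
    refine ⟨hKO hy, ?_⟩
    have := hM y hy
    simp only [Set.mem_preimage, Set.mem_Iio]
    linarith
  obtain ⟨u, v, hu, hv, hIu, hxv, huv⟩ :=
    generalized_tube_lemma isCompact_Icc isCompact_singleton hNo hKN
  have hx0v : x0 ∈ v := hxv (Set.mem_singleton x0)
  have hmem : ∀ s ∈ Set.Icc (0 : ℝ) 1, ∀ x ∈ v, (s, x) ∈ O ∧ ‖f' (s, x)‖ < M + 1 := by
    intro s hs x hx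
    have := huv (Set.mk_mem_prod (hIu hs) hx)
    exact ⟨this.1, this.2⟩
  have hI : Set.uIoc (0 : ℝ) 1 ⊆ Set.Icc (0 : ℝ) 1 := by
    rw [Set.uIoc_of_le zero_le_one]
    exact Set.Ioc_subset_Icc_self
  have hfc : ∀ x ∈ v, ContinuousOn (fun s : ℝ => f (s, x)) (Set.Icc 0 1) := by
    intro x hx
    have hc : ContinuousOn (fun s : ℝ => (s, x)) (Set.Icc 0 1) :=
      (continuous_id.prodMk continuous_const).continuousOn
    exact hf.comp hc (fun s hs => (hmem s hs x hx).1)
  have hfc' : ∀ x ∈ v, ContinuousOn (fun s : ℝ => f' (s, x)) (Set.Icc 0 1) := by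
    intro x hx
    have hc : ContinuousOn (fun s : ℝ => (s, x)) (Set.Icc 0 1) :=
      (continuous_id.prodMk continuous_const).continuousOn
    exact hf'.comp hc (fun s hs => (hmem s hs x hx).1)
  refine intervalIntegral.hasFDerivAt_integral_of_dominated_of_fderiv_le
    (F := fun x s => f (s, x)) (F' := fun x s => f' (s, x)) (bound := fun _ => M + 1)
    (hv.mem_nhds hx0v) ?_ ?_ ?_ ?_ ?_ ?_
  · filter_upwards [hv.mem_nhds hx0v] with x hx
    exact ((hfc x hx).mono hI).aestronglyMeasurable measurableSet_uIoc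
  · refine ContinuousOn.intervalIntegrable ?_
    rw [Set.uIcc_of_le zero_le_one]
    exact hfc x0 hx0v
  · exact ((hfc' x0 hx0v).mono hI).aestronglyMeasurable measurableSet_uIoc
  · exact Filter.Eventually.of_forall (fun t ht x hx => (hmem t (hI ht) x hx).2.le)
  · exact intervalIntegrable_const
  · exact Filter.Eventually.of_forall (fun t ht x hx => hd (t, x) (hmem t (hI ht) x hx).1)

end LibNC38
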