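import Pool.Agent.LibNT38.TD1
import Pool.Agent.LibNT38.TD2

set_option autoImplicit false

open Matrix MeasureTheory Topology Filter
open scoped Matrix.Norms.Elementwise

namespace LibNC38

/-- Row TD3. `x ↦ ∫_0^1 f(s, x) ds` is of class `C^m` if `f` is. PLAN. Induction on `m` (for all
`G`, `f`): `m = 0`: `par_cont` (`contDiffOn_zero`). Step: `contDiffOn_succ_iff_fderiv_of_isOpen` (or
`contDiffOn_succ_iff_hasFDerivWithinAt`) with `par_deriv` for
`f' y = (fderiv ℝ f y).comp (ContinuousLinearMap.inr ℝ ℝ E)`, which is of class `C^m` on `O`. -/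
theorem par_smooth {E G : Type} [NormedAddCommGroup E] [NormedSpace ℝ E]
    [NormedAddCommGroup G] [NormedSpace ℝ G] [CompleteSpace G] (m : ℕ) (f : ℝ × E → G)
    (O : Set (ℝ × E)) (V : Set E) (hO : IsOpen O) (hV : IsOpen V)
    (h : ∀ s ∈ Set.Icc (0 : ℝ) 1, ∀ x ∈ V, (s, x) ∈ O) (hf : ContDiffOn ℝ m f O) :
    ContDiffOn ℝ m (fun x => ∫ s in (0 : ℝ)..1, f (s, x)) V := by
  induction m generalizing G with
  | zero =>
    have h0 : ContinuousOn f O := hf.continuousOn
    have h1 := par_cont f O V hO hV h h0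
    have h2 : ContDiffOn ℝ 0 (fun x => ∫ s in (0 : ℝ)..1, f (s, x)) V := contDiffOn_zero.2 h1
    exact_mod_cast h2
  | succ m ih =>
    have hcast : (((m + 1 : ℕ) : ℕ∞) : WithTop ℕ∞) = (m : WithTop ℕ∞) + 1 := by push_cast; rfl
    have hf1 : ContDiffOn ℝ ((m : WithTop ℕ∞) + 1) f O := by
      have := hf
      exact_mod_cast this
    have hcf : ContinuousOn f O := hf.continuousOn
    have hdiff : DifferentiableOn ℝ f O := hf1.differentiableOn (by simp)
    have hfd : ContDiffOn ℝ (m : WithTop ℕ∞) (fun y => fderiv ℝ f y) O :=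
      ((contDiffOn_succ_iff_fderiv_of_isOpen hO).1 hf1).2.2
    have hf'm : ContDiffOn ℝ (m : WithTop ℕ∞)
        (fun y => (fderiv ℝ f y).comp (ContinuousLinearMap.inr ℝ ℝ E)) O :=
      hfd.clm_comp contDiffOn_const
    have hd : ∀ y ∈ O, HasFDerivAt (fun x => f (y.1, x))
        ((fderiv ℝ f y).comp (ContinuousLinearMap.inr ℝ ℝ E)) y.2 := by
      intro y hy
      have h1 : HasFDerivAt f (fderiv ℝ f y) (y.1, y.2) :=
        (hdiff.differentiableAt (hO.mem_nhds hy)).hasFDerivAt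
      have h2 : HasFDerivAt (fun x : E => (y.1, x)) (ContinuousLinearMap.inr ℝ ℝ E) y.2 :=
        hasFDerivAt_prodMk_right y.1 y.2
      exact h1.comp y.2 h2
    have hP := par_deriv f (fun y => (fderiv ℝ f y).comp (ContinuousLinearMap.inr ℝ ℝ E))
      O V hO hV h hcf hf'm.continuousOn hd
    have hI := ih (fun y => (fderiv ℝ f y).comp (ContinuousLinearMap.inr ℝ ℝ E)) hf'm
    have hgoal : ContDiffOn ℝ ((m : WithTop ℕ∞) + 1)
        (fun x => ∫ s in (0 : ℝ)..1, f (s, x)) V := by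
      rw [contDiffOn_succ_iff_fderiv_of_isOpen hV]
      refine ⟨fun x hx => (hP x hx).differentiableAt.differentiableWithinAt, fun hm => ?_, ?_⟩
      · exact absurd hm (by simp)
      · exact hI.congr (fun x hx => (hP x hx).fderiv)
    exact_mod_cast hgoal

theorem par_smooth_top {E G : Type} [NormedAddCommGroup E] [NormedSpace ℝ E]
    [NormedAddCommGroup G] [NormedSpace ℝ G] [CompleteSpace G] (m : ℕ∞) (f : ℝ × E → G)
    (O : Set (ℝ × E)) (V : Set E) (hO : IsOpen O) (hV : IsOpen V)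
    (h : ∀ s ∈ Set.Icc (0 : ℝ) 1, ∀ x ∈ V, (s, x) ∈ O) (hf : ContDiffOn ℝ m f O) :
    ContDiffOn ℝ m (fun x => ∫ s in (0 : ℝ)..1, f (s, x)) V := by
  rcases eq_or_ne m ⊤ with hm | hm
  · subst hm
    rw [contDiffOn_infty]
    intro k
    exact par_smooth k f O V hO hV h (hf.of_le (by exact_mod_cast le_top))
  · obtain ⟨k, rfl⟩ := ENat.ne_top_iff_exists.1 hm
    exact par_smooth k f O V hO hV h hf

end LibNC38
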