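import Pool.Agent.LibNT38.TA1
import Pool.Agent.LibNT38.TC2
import Pool.Agent.LibNT38.TD3

set_option autoImplicit false

open Matrix MeasureTheory Topology Filter
open scoped Matrix.Norms.Elementwise ContDiff

namespace LibNC38

variable {m : ℕ∞}

private theorem TE1_exp {n : ℕ} :
    ContDiff ℝ m (fun p : ℝ × Mt n => NormedSpace.exp (p.1 • p.2)) :=
  exp_smoothm.comp (contDiff_fst.smul contDiff_snd)

private theorem TE1_pos {n : ℕ} (h : SL n) (s : Set (ℝ × Mt n)) :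
    ContDiffOn ℝ m (fun p : ℝ × Mt n => h.1 * NormedSpace.exp (p.1 • p.2) * h.1ᵀ) s :=
  cd_mul (cd_mul contDiffOn_const TE1_exp.contDiffOn) contDiffOn_const

private theorem TE1_vel {n : ℕ} (h : SL n) (s : Set (ℝ × Mt n)) :
    ContDiffOn ℝ m (fun p : ℝ × Mt n => h.1 * (p.2 * NormedSpace.exp (p.1 • p.2)) * h.1ᵀ) s :=
  cd_mul (cd_mul contDiffOn_const (cd_mul contDiff_snd.contDiffOn TE1_exp.contDiffOn))
    contDiffOn_const

private theorem TE1_open {n : ℕ} (O : Set (ℝ × Mt n)) (hO : IsOpen O) :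
    IsOpen {W : Mt n | ∀ s ∈ Set.Icc (0 : ℝ) 1, (s, W) ∈ O} := by
  rw [isOpen_iff_eventually]
  intro W hW
  refine IsCompact.eventually_forall_of_forall_eventually
    (P := fun (W : Mt n) (s : ℝ) => (s, W) ∈ O) isCompact_Icc ?_
  intro s hs
  have h1 : Filter.Tendsto (fun z : Mt n × ℝ => (z.2, z.1)) (𝓝 (W, s)) (𝓝 (s, W)) :=
    (continuous_snd.prodMk continuous_fst).tendsto (W, s)
  exact h1.eventually (hO.mem_nhds (hW s hs))

/-- Row TE1. For a `C²` tensor (`K` on the open set `U`) and `h : SL n`, the energy integral along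
`s ↦ h exp(s W) hᵀ`, `0 ≤ s ≤ 1`, is of class `C²` in `W` on an open set `V` which contains `Sym0`.
PLAN. `F (s, W) := K (h exp(s W) hᵀ) (h W exp(s W) hᵀ) (h W exp(s W) hᵀ)` is of class `C²` on the open
set `O := {(s, W) | h exp(s W) hᵀ ∈ U}` of `ℝ × Mt n` (`cd_bil`, `cd_mul` of `T0`, `exp_smooth`,
`(hK _ _).comp`); `V := {W | ∀ s ∈ Icc 0 1, (s, W) ∈ O}` is open (tube lemma, `isCompact_Icc`;
`generalized_tube_lemma`), contains `Sym0` by `geo_ex` and `hUp`; then `par_smooth_top m`. -/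
theorem int_smooth {n : ℕ} (U : Set (Mt n)) (K : Mt n → Fm n) (hU : IsOpen U)
    (hUp : ∀ p : PD n, p.1 ∈ U) (hK : ∀ v w, ContDiffOn ℝ m (fun p => K p v w) U) (h : SL n) :
    ∃ V : Set (Mt n), IsOpen V ∧ (∀ W, Sym0 W → W ∈ V) ∧
      ContDiffOn ℝ m (fun W : Mt n => ∫ s in (0 : ℝ)..1,
        K (h.1 * NormedSpace.exp (s • W) * h.1ᵀ) (h.1 * (W * NormedSpace.exp (s • W)) * h.1ᵀ)
          (h.1 * (W * NormedSpace.exp (s • W)) * h.1ᵀ)) V := by
  set O : Set (ℝ × Mt n) :=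
    (fun p : ℝ × Mt n => h.1 * NormedSpace.exp (p.1 • p.2) * h.1ᵀ) ⁻¹' U with hOdef
  have hcont : Continuous (fun p : ℝ × Mt n => h.1 * NormedSpace.exp (p.1 • p.2) * h.1ᵀ) :=
    (contDiffOn_univ.1 (TE1_pos (m := 0) h Set.univ)).continuous
  have hO : IsOpen O := hU.preimage hcont
  refine ⟨{W : Mt n | ∀ s ∈ Set.Icc (0 : ℝ) 1, (s, W) ∈ O}, TE1_open O hO, ?_, ?_⟩
  · intro W hW s _
    obtain ⟨c, hc⟩ := geo_ex h W hW
    have h1 := hUp (c s)
    rw [hc s] at h1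
    exact h1
  · have hf : ContDiffOn ℝ m (fun p : ℝ × Mt n =>
        K (h.1 * NormedSpace.exp (p.1 • p.2) * h.1ᵀ)
          (h.1 * (p.2 * NormedSpace.exp (p.1 • p.2)) * h.1ᵀ)
          (h.1 * (p.2 * NormedSpace.exp (p.1 • p.2)) * h.1ᵀ)) O := by
      refine cd_bil (K := fun p : ℝ × Mt n => K (h.1 * NormedSpace.exp (p.1 • p.2) * h.1ᵀ))
        (fun a b => ?_) (TE1_vel h O) (TE1_vel h O)
      exact (hK a b).comp (TE1_pos h O) (fun p hp => hp)
    exact par_smooth_top m _ O _ hO (TE1_open O hO) (fun s hs W hW => hW s hs) hf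

end LibNC38
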