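import Pool.Agent.LibNT38.TB2

set_option autoImplicit false

open Matrix MeasureTheory Topology Filter
open scoped Matrix.Norms.Elementwise

namespace LibNC38

private theorem TE2_inv_coe {n : ℕ} (h : SL n) (A : Mt n) (hA : A * h.1 = 1) : h⁻¹.1 = A := by
  have h1 : h.1 * h⁻¹.1 = 1 := by
    rw [← Matrix.SpecialLinearGroup.coe_mul, mul_inv_cancel, Matrix.SpecialLinearGroup.coe_one]
  calc h⁻¹.1 = (A * h.1) * h⁻¹.1 := by rw [hA, one_mul]
    _ = A * (h.1 * h⁻¹.1) := by rw [mul_assoc]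
    _ = A := by rw [h1, mul_one]

/-- Row TE2. PLAN. `h := h0 * exp(-(1/2) Z)`, `h0 = tch x0` (`tch_mul x0 : h0 h0ᵀ = x0`), determinant
`exp(-tr Z / 2) = 1` by `det_exp_symm`. `h⁻¹ = exp(Z/2) h0⁻¹` (as matrices, from
`exp(Z/2) exp(-Z/2) = 1`: `Matrix.exp_add_of_commute`, `exp_zero`); `exp(Z/2)ᵀ = exp(Z/2)`
(`Matrix.exp_transpose`); `exp(Z/2) exp(Z/2) = exp Z`; `Z` commutes with `exp(± Z/2)`
(`Commute.exp_right` or `NormedSpace` lemmas; `(Commute.refl Z).smul_right _ |>.exp_right`). -/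
theorem hZ_ex {n : ℕ} (x0 : PD n) (Z : Mt n) (hZ : Sym0 Z) : ∃ h : SL n,
    h⁻¹.1 * x0.1 * h⁻¹.1ᵀ = NormedSpace.exp Z ∧
    h.1 * Z * h⁻¹.1 * x0.1 = (tch x0).1 * Z * (tch x0).1ᵀ := by
  obtain ⟨hs, ht⟩ := hZ
  set P : Mt n := (1 / 2 : ℝ) • Z with hP
  have hPs : Pᵀ = P := by rw [hP, Matrix.transpose_smul, hs]
  have hNs : (-P)ᵀ = -P := by rw [Matrix.transpose_neg, hPs]
  have hPN : Commute P (-P) := (Commute.refl P).neg_right
  have hNP : Commute (-P) P := (Commute.refl P).neg_left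
  have e1 : NormedSpace.exp P * NormedSpace.exp (-P) = 1 := by
    rw [← Matrix.exp_add_of_commute P (-P) hPN, add_neg_cancel, NormedSpace.exp_zero]
  have e2 : NormedSpace.exp (-P) * NormedSpace.exp P = 1 := by
    rw [← Matrix.exp_add_of_commute (-P) P hNP, neg_add_cancel, NormedSpace.exp_zero]
  have e3 : NormedSpace.exp P * NormedSpace.exp P = NormedSpace.exp Z := by
    rw [← Matrix.exp_add_of_commute P P (Commute.refl P)]
    congr 1
    rw [hP, ← add_smul]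
    norm_num
  have eT : (NormedSpace.exp P)ᵀ = NormedSpace.exp P := by
    rw [← Matrix.exp_transpose, hPs]
  have hZP : Commute Z P := by rw [hP]; exact (Commute.refl Z).smul_right _
  have hc : Commute (NormedSpace.exp (-P)) Z := by
    have : Commute Z (NormedSpace.exp (-P)) := hZP.neg_right.exp_right
    exact this.symm
  have hdet : (NormedSpace.exp (-P)).det = 1 := by
    rw [det_exp_symm (-P) hNs, Matrix.trace_neg, hP, Matrix.trace_smul, ht]
    simp
  have hh : (tch x0).1 * (tch x0).1ᵀ = x0.1 := tch_mul x0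
  have i1 : (tch x0)⁻¹.1 * (tch x0).1 = 1 := by
    rw [← Matrix.SpecialLinearGroup.coe_mul, inv_mul_cancel, Matrix.SpecialLinearGroup.coe_one]
  let h : SL n := tch x0 * ⟨NormedSpace.exp (-P), hdet⟩
  have hv : h.1 = (tch x0).1 * NormedSpace.exp (-P) := rfl
  have hi : h⁻¹.1 = NormedSpace.exp P * (tch x0)⁻¹.1 := by
    refine TE2_inv_coe h _ ?_
    rw [hv]
    calc NormedSpace.exp P * (tch x0)⁻¹.1 * ((tch x0).1 * NormedSpace.exp (-P))
        = NormedSpace.exp P * ((tch x0)⁻¹.1 * (tch x0).1) * NormedSpace.exp (-P) := by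
          simp only [mul_assoc]
      _ = 1 := by rw [i1, mul_one, e1]
  have i2 : (tch x0).1ᵀ * (tch x0)⁻¹.1ᵀ = 1 := by
    rw [← Matrix.transpose_mul, i1, Matrix.transpose_one]
  refine ⟨h, ?_, ?_⟩
  · rw [hi, Matrix.transpose_mul, eT, ← hh]
    calc NormedSpace.exp P * (tch x0)⁻¹.1 * ((tch x0).1 * (tch x0).1ᵀ) *
          ((tch x0)⁻¹.1ᵀ * NormedSpace.exp P)
        = NormedSpace.exp P * ((tch x0)⁻¹.1 * (tch x0).1) *
          ((tch x0).1ᵀ * (tch x0)⁻¹.1ᵀ) * NormedSpace.exp P := by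
          simp only [mul_assoc]
      _ = NormedSpace.exp Z := by rw [i1, i2, mul_one, mul_one, e3]
  · rw [hi, hv, ← hh]
    calc (tch x0).1 * NormedSpace.exp (-P) * Z * (NormedSpace.exp P * (tch x0)⁻¹.1) *
          ((tch x0).1 * (tch x0).1ᵀ)
        = (tch x0).1 * (NormedSpace.exp (-P) * Z) * NormedSpace.exp P *
          ((tch x0)⁻¹.1 * (tch x0).1) * (tch x0).1ᵀ := by
          simp only [mul_assoc]
      _ = (tch x0).1 * Z * (NormedSpace.exp (-P) * NormedSpace.exp P) *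
          ((tch x0)⁻¹.1 * (tch x0).1) * (tch x0).1ᵀ := by
          rw [hc.eq]; simp only [mul_assoc]
      _ = (tch x0).1 * Z * (tch x0).1ᵀ := by rw [i1, e2, mul_one, mul_one]

end LibNC38
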