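import Pool.Agent.LibNT38.TA1
import Pool.Agent.LibNT38.TC2

set_option autoImplicit false

open Matrix MeasureTheory Topology Filter
open scoped Matrix.Norms.Elementwise ContDiff

namespace LibNC38

variable {m : ℕ∞}

private theorem TE3_hinv {n : ℕ} (h : SL n) : h⁻¹.1 * h.1 = 1 :=
  congrArg Subtype.val (inv_mul_cancel h)

private theorem TE3_hinv' {n : ℕ} (h : SL n) : h.1 * h⁻¹.1 = 1 :=
  congrArg Subtype.val (mul_inv_cancel h)

private theorem TE3_vel {n : ℕ} (h : SL n) (W : Mt n) (x : PD n)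
    (hx : x.1 = h.1 * NormedSpace.exp W * h.1ᵀ) :
    h.1 * W * h⁻¹.1 * x.1 = h.1 * (W * NormedSpace.exp W) * h.1ᵀ := by
  rw [hx]
  calc h.1 * W * h⁻¹.1 * (h.1 * NormedSpace.exp W * h.1ᵀ)
      = h.1 * W * (h⁻¹.1 * h.1) * NormedSpace.exp W * h.1ᵀ := by
        simp only [Matrix.mul_assoc]
    _ = h.1 * (W * NormedSpace.exp W) * h.1ᵀ := by
        rw [TE3_hinv, Matrix.mul_one]
        simp only [Matrix.mul_assoc]

private theorem TE3_tan {n : ℕ} (h : SL n) (W : Mt n) (hW : Sym0 W) (x : PD n)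
    (hx : x.1 = h.1 * NormedSpace.exp W * h.1ᵀ) : IsTan x (h.1 * W * h⁻¹.1 * x.1) := by
  constructor
  · rw [TE3_vel h W x hx]
    have hE : (NormedSpace.exp W)ᵀ = NormedSpace.exp W := by
      rw [← Matrix.exp_transpose, hW.1]
    have hc : NormedSpace.exp W * W = W * NormedSpace.exp W :=
      ((Commute.refl W).exp_right).eq.symm
    rw [Matrix.transpose_mul, Matrix.transpose_mul, Matrix.transpose_mul, Matrix.transpose_transpose,
      hW.1, hE, hc]
    simp only [Matrix.mul_assoc]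
  · have hu : IsUnit x.1.det := by rw [x.2.2]; exact isUnit_one
    rw [Matrix.trace_mul_comm]
    have e : h.1 * W * h⁻¹.1 * x.1 * x.1⁻¹ = h.1 * (W * h⁻¹.1) := by
      rw [Matrix.mul_assoc (h.1 * W * h⁻¹.1), Matrix.mul_nonsing_inv _ hu, Matrix.mul_one,
        Matrix.mul_assoc]
    rw [e, Matrix.trace_mul_comm, Matrix.mul_assoc, TE3_hinv, Matrix.mul_one]
    exact hW.2

private theorem TE3_cont {n : ℕ} (U : Set (Mt n)) (K : Mt n → Fm n)
    (hK : ∀ v w, ContDiffOn ℝ m (fun p => K p v w) U) (h : SL n) (W : Mt n)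
    (hm : ∀ s : ℝ, h.1 * NormedSpace.exp (s • W) * h.1ᵀ ∈ U) :
    Continuous fun s : ℝ => K (h.1 * NormedSpace.exp (s • W) * h.1ᵀ)
        (h.1 * (W * NormedSpace.exp (s • W)) * h.1ᵀ)
        (h.1 * (W * NormedSpace.exp (s • W)) * h.1ᵀ) := by
  have hE : ContDiffOn ℝ m (fun s : ℝ => NormedSpace.exp (s • W)) Set.univ := by
    have h1 : ContDiff ℝ m (fun s : ℝ => s • W) := contDiff_id.smul contDiff_const
    exact (exp_smoothm.comp h1).contDiffOn
  have hg : ContDiffOn ℝ m (fun s : ℝ => h.1 * NormedSpace.exp (s • W) * h.1ᵀ) Set.univ :=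
    cd_mul (cd_mul contDiffOn_const hE) contDiffOn_const
  have hv : ContDiffOn ℝ m (fun s : ℝ => h.1 * (W * NormedSpace.exp (s • W)) * h.1ᵀ) Set.univ :=
    cd_mul (cd_mul contDiffOn_const (cd_mul contDiffOn_const hE)) contDiffOn_const
  have hK' : ∀ a b, ContDiffOn ℝ m
      (fun s : ℝ => K (h.1 * NormedSpace.exp (s • W) * h.1ᵀ) a b) Set.univ := fun a b =>
    (hK a b).comp hg (fun s _ => hm s)
  have := cd_bil (K := fun s : ℝ => K (h.1 * NormedSpace.exp (s • W) * h.1ᵀ)) hK' hv hv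
  exact continuousOn_univ.1 this.continuousOn

/-- Row TE3. Fundamental theorem of calculus along the geodesic from `h hᵀ` to `x`.
PLAN. `c` from `geo_ex h W hW`: `c 1 = x`, `c 0 = act h (o n)` (`exp 0 = 1`); velocity at `1`:
`h (W exp W) hᵀ = h W h⁻¹ x`, at `0`: `h W hᵀ`. `geo_mat` and
`intervalIntegral.integral_eq_sub_of_hasDerivAt` (the derivative is continuous in `s`: `K` has continuous
coefficients on `U`, `cd_bil` with `ContDiffOn.continuousOn`, `exp_smooth`; or Mathlib's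
`NormedSpace.exp_continuous`). `IsTan x (h W h⁻¹ x)`: symmetric, since it is `h (W exp W) hᵀ` and `W`
commutes with `exp W`; `tr (x⁻¹ h W h⁻¹ x) = tr W = 0` (`x.1` invertible: `x.2.2 : det = 1`). -/
theorem ftc_geo {n : ℕ} (κ : PD n → Fm n) (U : Set (Mt n)) (K : Mt n → Fm n) (hU : IsOpen U)
    (hUp : ∀ p : PD n, p.1 ∈ U ∧ K p.1 = κ p) (hK : ∀ v w, ContDiffOn ℝ m (fun p => K p v w) U)
    (c0 : ℝ) (ξ : PD n → Mt n →ₗ[ℝ] ℝ) (hG : GD κ c0 ξ) (h : SL n) (W : Mt n) (hW : Sym0 W)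
    (x : PD n) (hx : x.1 = h.1 * NormedSpace.exp W * h.1ᵀ) :
    IsTan x (h.1 * W * h⁻¹.1 * x.1) ∧
    ξ x (h.1 * W * h⁻¹.1 * x.1) = ξ (act h (o n)) (h.1 * W * h.1ᵀ) +
      (∫ s in (0 : ℝ)..1, K (h.1 * NormedSpace.exp (s • W) * h.1ᵀ)
        (h.1 * (W * NormedSpace.exp (s • W)) * h.1ᵀ)
        (h.1 * (W * NormedSpace.exp (s • W)) * h.1ᵀ)) - c0 * (W * W).trace := by
  refine ⟨TE3_tan h W hW x hx, ?_⟩
  obtain ⟨c, hc⟩ := geo_ex h W hW
  have hc1 : c 1 = x := Subtype.ext (by rw [hc 1, one_smul, hx])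
  have hc0 : c 0 = act h (o n) := Subtype.ext (by
    rw [hc 0, zero_smul, NormedSpace.exp_zero]; rfl)
  have hm : ∀ s : ℝ, h.1 * NormedSpace.exp (s • W) * h.1ᵀ ∈ U := fun s => by
    rw [← hc s]; exact (hUp (c s)).1
  have hcont := TE3_cont U K hK h W hm
  have hder : ∀ s : ℝ, HasDerivAt (fun s => ξ (c s) (h.1 * (W * NormedSpace.exp (s • W)) * h.1ᵀ))
      (K (h.1 * NormedSpace.exp (s • W) * h.1ᵀ)
        (h.1 * (W * NormedSpace.exp (s • W)) * h.1ᵀ)
        (h.1 * (W * NormedSpace.exp (s • W)) * h.1ᵀ) - c0 * (W * W).trace) s := by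
    intro s
    have h1 := geo_mat κ c0 ξ hG h W hW c hc s
    rw [← (hUp (c s)).2, hc s] at h1
    exact h1
  have hftc := intervalIntegral.integral_eq_sub_of_hasDerivAt (a := (0 : ℝ)) (b := 1)
    (fun s _ => hder s) ((hcont.sub continuous_const).intervalIntegrable _ _)
  rw [intervalIntegral.integral_sub (hcont.intervalIntegrable _ _)
    (continuous_const.intervalIntegrable _ _), intervalIntegral.integral_const] at hftc
  rw [hc1, hc0, one_smul, zero_smul, NormedSpace.exp_zero, Matrix.mul_one] at hftc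
  rw [TE3_vel h W x hx]
  simp only [sub_zero, one_smul] at hftc
  linarith

end LibNC38
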