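import Pool.Agent.LibNT38.TB3
import Pool.Agent.LibNT38.TE1
import Pool.Agent.LibNT38.TE2
import Pool.Agent.LibNT38.TE3

set_option autoImplicit false

open Matrix MeasureTheory Topology Filter
open scoped Matrix.Norms.Elementwise ContDiff

namespace LibNC38

variable {m : ℕ∞}

/-- Row TE4 (assembly of TB3, TE1, TE2, TE3). One base point: near `x0`, `ξ` is of class `C²` on the
velocities at `x` of the geodesics from `h hᵀ` to `x`.
PLAN. `N, N', L` from `log_sym`, `hκ = ⟨U, K, ..⟩`; the neighbourhood of `0` is `N'`. For `Z ∈ N'`,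
`Sym0 Z`: `h` from `hZ_ex`; `y x := h⁻¹ x h⁻ᵀ` (linear in `x`), `y x0 = exp Z ∈ N`; `Wf x := L (y x)`,
`Wf x0 = Z`. `S := {x | y x ∈ N ∧ Wf x ∈ V}`, `V` from `int_smooth` for `h` (open: `Wf` is continuous on
the open set `{y x ∈ N}`, `ContinuousOn.isOpen_inter_preimage`). `v x := h * Wf x * h⁻¹ * x`,
`ρ x := ξ (act h (o n)) (h * Wf x * hᵀ) + ∫ .. (Wf x) - c0 * (Wf x * Wf x).trace`, `C²` on `S` by
`cd_lin` (constant form), `int_smooth` composed with `Wf`, `cd_trace`, `cd_mul`. For `x : PD n`,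
`x ∈ S`: `y x` is symmetric with determinant one so `Sym0 (Wf x)`, `x = h exp(Wf x) hᵀ`, and `ftc_geo`. -/
theorem base_pt {n : ℕ} (κ : PD n → Fm n) (hκ : CmF m κ) (c0 : ℝ)
    (ξ : PD n → Mt n →ₗ[ℝ] ℝ) (hG : GD κ c0 ξ) (x0 : PD n) :
    ∃ N' : Set (Mt n), IsOpen N' ∧ (0 : Mt n) ∈ N' ∧ ∀ Z ∈ N', Sym0 Z →
      ∃ (S : Set (Mt n)) (v : Mt n → Mt n) (ρ : Mt n → ℝ), IsOpen S ∧ x0.1 ∈ S ∧
        ContDiffOn ℝ m v S ∧ ContDiffOn ℝ m ρ S ∧ v x0.1 = (tch x0).1 * Z * (tch x0).1ᵀ ∧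
        ∀ x : PD n, x.1 ∈ S → IsTan x (v x.1) ∧ ξ x (v x.1) = ρ x.1 := by
  obtain ⟨N, N', L, hN, hN', h0, hLs, hL1, hL2, hL3⟩ := log_sym (n := n)
  obtain ⟨U, K, hU, hUp, hK⟩ := hκ
  refine ⟨N', hN', h0, fun Z hZ hZs => ?_⟩
  obtain ⟨h, hh1, hh2⟩ := hZ_ex x0 Z hZs
  obtain ⟨V, hV, hVs, hVI⟩ := int_smooth U K hU (fun p => (hUp p).1) hK h
  have hi1 : h.1 * h⁻¹.1 = 1 := congrArg Subtype.val (mul_inv_cancel h)
  let y : Mt n → Mt n := fun x => h⁻¹.1 * x * h⁻¹.1ᵀ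
  have hyd : ∀ s : Set (Mt n), ContDiffOn ℝ m y s := fun s =>
    cd_mul (cd_mul contDiffOn_const contDiffOn_id) contDiffOn_const
  have hyc : Continuous y := by
    have := (hyd Set.univ).continuousOn
    exact continuousOn_univ.1 this
  let T : Set (Mt n) := y ⁻¹' N
  have hT : IsOpen T := hN.preimage hyc
  let Wf : Mt n → Mt n := fun x => L (y x)
  have hWf : ContDiffOn ℝ m Wf T := (hLs.of_le le_top).comp (hyd T) (fun x hx => hx)
  let S : Set (Mt n) := T ∩ Wf ⁻¹' V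
  have hS : IsOpen S := hWf.continuousOn.isOpen_inter_preimage hT hV
  have hWS : ContDiffOn ℝ m Wf S := hWf.mono Set.inter_subset_left
  have hy0 : y x0.1 = NormedSpace.exp Z := hh1
  have hW0 : Wf x0.1 = Z := by
    change L (y x0.1) = Z
    rw [hy0]
    exact (hL2 Z hZ).2
  refine ⟨S, fun x => h.1 * Wf x * h⁻¹.1 * x,
    fun x => ξ (act h (o n)) (h.1 * Wf x * h.1ᵀ) +
      (∫ s in (0 : ℝ)..1, K (h.1 * NormedSpace.exp (s • Wf x) * h.1ᵀ)
        (h.1 * (Wf x * NormedSpace.exp (s • Wf x)) * h.1ᵀ)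
        (h.1 * (Wf x * NormedSpace.exp (s • Wf x)) * h.1ᵀ)) - c0 * (Wf x * Wf x).trace,
    hS, ⟨?_, ?_⟩, ?_, ?_, ?_, ?_⟩
  · change y x0.1 ∈ N
    rw [hy0]
    exact (hL2 Z hZ).1
  · change Wf x0.1 ∈ V
    rw [hW0]
    exact hVs Z hZs
  · exact cd_mul (cd_mul (cd_mul contDiffOn_const hWS) contDiffOn_const) contDiffOn_id
  · refine ContDiffOn.sub (ContDiffOn.add ?_ ?_) ?_
    · exact cd_lin (η := fun _ => ξ (act h (o n))) (fun w => contDiffOn_const)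
        (cd_mul (cd_mul contDiffOn_const hWS) contDiffOn_const)
    · exact hVI.comp hWS (fun x hx => hx.2)
    · exact contDiffOn_const.mul (cd_trace (cd_mul hWS hWS))
  · change h.1 * Wf x0.1 * h⁻¹.1 * x0.1 = _
    rw [hW0]
    exact hh2
  · intro x hx
    have hyx : y x.1 ∈ N := hx.1
    have hxs : x.1ᵀ = x.1 := by
      have := x.2.1.isHermitian
      rw [Matrix.IsHermitian, Matrix.conjTranspose_eq_transpose_of_trivial] at this
      exact this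
    have hsym : (y x.1)ᵀ = y x.1 := by
      change (h⁻¹.1 * x.1 * h⁻¹.1ᵀ)ᵀ = h⁻¹.1 * x.1 * h⁻¹.1ᵀ
      rw [Matrix.transpose_mul, Matrix.transpose_mul, Matrix.transpose_transpose, hxs,
        Matrix.mul_assoc]
    have hdet : (y x.1).det = 1 := by
      change (h⁻¹.1 * x.1 * h⁻¹.1ᵀ).det = 1
      rw [Matrix.det_mul, Matrix.det_mul, Matrix.det_transpose, x.2.2, h⁻¹.2]
      norm_num
    have hW : Sym0 (Wf x.1) := hL3 _ hyx hsym hdet
    have hi2 : h⁻¹.1ᵀ * h.1ᵀ = 1 := by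
      rw [← Matrix.transpose_mul, hi1, Matrix.transpose_one]
    have hxe : x.1 = h.1 * NormedSpace.exp (Wf x.1) * h.1ᵀ := by
      have e1 : NormedSpace.exp (Wf x.1) = y x.1 := hL1 _ hyx
      rw [e1]
      change x.1 = h.1 * (h⁻¹.1 * x.1 * h⁻¹.1ᵀ) * h.1ᵀ
      calc x.1 = 1 * x.1 * 1 := by rw [Matrix.one_mul, Matrix.mul_one]
        _ = (h.1 * h⁻¹.1) * x.1 * (h⁻¹.1ᵀ * h.1ᵀ) := by rw [hi1, hi2]
        _ = _ := by simp only [Matrix.mul_assoc]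
    exact ftc_geo κ U K hU hUp hK c0 ξ hG h (Wf x.1) hW x hxe

end LibNC38
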