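import Pool.Agent.LibNT38.T0

set_option autoImplicit false

open Matrix MeasureTheory Topology Filter
open scoped Matrix.Norms.Elementwise

namespace LibNC38

/-- the orthogonal projection onto the symmetric matrices with trace zero -/
noncomputable def prS {n : ℕ} (A : Mt n) : Mt n :=
  (1 / 2 : ℝ) • (A + Aᵀ) - (A.trace / n) • (1 : Mt n)

/-- Row TF1 (a). `n = 0`: the trace is an empty sum. -/
theorem prS_facts {n : ℕ} : (∀ A : Mt n, Sym0 (prS A)) ∧
    (∀ A : Mt n, A.trace = 0 → Aᵀ = A → prS A = A) ∧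
    (∀ A B : Mt n, prS (A + B) = prS A + prS B) ∧ (∀ (r : ℝ) (A : Mt n), prS (r • A) = r • prS A) := by
  refine ⟨fun A => ⟨?_, ?_⟩, fun A h0 hs => ?_, fun A B => ?_, fun r A => ?_⟩
  · unfold prS
    rw [Matrix.transpose_sub, Matrix.transpose_smul, Matrix.transpose_smul, Matrix.transpose_add,
      Matrix.transpose_transpose, Matrix.transpose_one, add_comm Aᵀ A]
  · unfold prS
    rw [Matrix.trace_sub, Matrix.trace_smul, Matrix.trace_smul, Matrix.trace_add,
      Matrix.trace_transpose, Matrix.trace_one, Fintype.card_fin, smul_eq_mul, smul_eq_mul]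
    rcases Nat.eq_zero_or_pos n with h | h
    · subst h
      simp [Matrix.trace]
    · have hn : (n : ℝ) ≠ 0 := by exact_mod_cast h.ne'
      field_simp
      ring
  · unfold prS
    rw [h0, hs]
    ext i j
    simp only [Matrix.sub_apply, Matrix.smul_apply, Matrix.add_apply, smul_eq_mul]
    ring
  · unfold prS
    rw [Matrix.trace_add, Matrix.transpose_add]
    ext i j
    simp only [Matrix.sub_apply, Matrix.smul_apply, Matrix.add_apply, smul_eq_mul]
    ring
  · unfold prS
    rw [Matrix.trace_smul, Matrix.transpose_smul]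
    ext i j
    simp only [Matrix.sub_apply, Matrix.smul_apply, Matrix.add_apply, smul_eq_mul]
    ring

/-- Row TF1 (b). PLAN. `B := A - prS A = (1/2)(A - Aᵀ) + (tr A / n) 1`. `h0 B h0ᵀ` is symmetric
(`e ≠ 0`), so `B` is symmetric (`h0` invertible), hence `A = Aᵀ`, `B = (tr A / n) 1` and
`h0 B h0ᵀ = (tr A / n) x0`; `tr (x⁻¹ (..)) = 0` gives `(tr A / n) tr (x⁻¹ x0) = 0`. For `n ≥ 1`
`tr (x⁻¹ x0) > 0`: `tr (x⁻¹ h0 h0ᵀ) = tr (h0ᵀ x⁻¹ h0)`, a positive definite matrix
(`Matrix.PosDef.inv`, `Matrix.PosDef.trace_pos` or the diagonal entries). For `n = 0` all matrices are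
equal (`Subsingleton`). -/
theorem tan_zero {n : ℕ} (x x0 : PD n) (e : ℝ) (he : e ≠ 0) (h0 : SL n)
    (h : h0.1 * h0.1ᵀ = x0.1) (A : Mt n) (hT : IsTan x (e • (h0.1 * (A - prS A) * h0.1ᵀ))) :
    h0.1 * (A - prS A) * h0.1ᵀ = 0 := by
  rcases Nat.eq_zero_or_pos n with hn | hn
  · subst hn
    exact Subsingleton.elim _ _
  haveI : Nonempty (Fin n) := ⟨⟨0, hn⟩⟩
  have hnr : (n : ℝ) ≠ 0 := by exact_mod_cast hn.ne'
  obtain ⟨hsym, htr⟩ := hT
  set B : Mt n := A - prS A with hB
  have hd : h0.1.det = 1 := h0.2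
  have hu : IsUnit h0.1.det := by rw [hd]; exact isUnit_one
  -- symmetry of `B`
  have h1 : h0.1 * Bᵀ * h0.1ᵀ = h0.1 * B * h0.1ᵀ := by
    have h2 : e • (h0.1 * B * h0.1ᵀ)ᵀ = e • (h0.1 * B * h0.1ᵀ) := by
      rw [← Matrix.transpose_smul]; exact hsym
    have h3 := smul_right_injective (Mt n) he h2
    rw [Matrix.transpose_mul, Matrix.transpose_mul, Matrix.transpose_transpose, ← Matrix.mul_assoc] at h3
    exact h3
  have hut : IsUnit (h0.1ᵀ).det := by rw [Matrix.det_transpose]; exact hu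
  have h4 : Bᵀ = B := by
    have h5 : h0.1 * Bᵀ = h0.1 * B := by
      have h6 := congrArg (fun M => M * (h0.1ᵀ)⁻¹) h1
      simp only [Matrix.mul_assoc, Matrix.mul_nonsing_inv _ hut, Matrix.mul_one] at h6
      exact h6
    have h6 := congrArg (fun M => h0.1⁻¹ * M) h5
    simp only [← Matrix.mul_assoc, Matrix.nonsing_inv_mul _ hu, Matrix.one_mul] at h6
    exact h6
  have hBij : ∀ i j, B i j = (1 / 2 : ℝ) * (A i j - A j i) + (A.trace / n) * (1 : Mt n) i j := by
    intro i j
    rw [hB]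
    unfold prS
    simp only [Matrix.sub_apply, Matrix.smul_apply, Matrix.add_apply, smul_eq_mul,
      Matrix.transpose_apply]
    ring
  have hBA : B = (A.trace / n) • (1 : Mt n) := by
    ext i j
    have h7 : B j i = B i j := congrFun (congrFun h4 i) j
    rw [hBij, hBij] at h7
    have h8 : (1 : Mt n) j i = (1 : Mt n) i j := by
      have := congrFun (congrFun (Matrix.transpose_one (n := Fin n) (α := ℝ)) i) j
      exact this
    rw [h8] at h7
    have h9 : A i j = A j i := by linarith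
    rw [hBij, h9, Matrix.smul_apply, smul_eq_mul]
    ring
  have h10 : h0.1 * B * h0.1ᵀ = (A.trace / n) • x0.1 := by
    rw [hBA, Matrix.mul_smul, Matrix.smul_mul, Matrix.mul_one, h]
  rw [h10] at htr ⊢
  have hpos : 0 < (x.1⁻¹ * x0.1).trace := by
    have hp : (h0.1ᵀ * x.1⁻¹ * h0.1).PosDef := by
      have h11 := (x.2.1.inv).mul_mul_conjTranspose_same (B := h0.1ᵀ)
        (Matrix.vecMul_injective_of_isUnit ((Matrix.isUnit_iff_isUnit_det _).2 hut))
      simpa [Matrix.conjTranspose_eq_transpose_of_trivial] using h11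
    have h12 : (x.1⁻¹ * x0.1).trace = (h0.1ᵀ * x.1⁻¹ * h0.1).trace := by
      rw [← h, ← Matrix.mul_assoc, Matrix.trace_mul_comm (x.1⁻¹ * h0.1) (h0.1ᵀ), Matrix.mul_assoc]
    rw [h12]
    exact hp.trace_pos
  rw [Matrix.mul_smul, Matrix.mul_smul, Matrix.trace_smul, Matrix.trace_smul, smul_eq_mul,
    smul_eq_mul] at htr
  rcases mul_eq_zero.1 htr with h13 | h13
  · exact absurd h13 he
  rcases mul_eq_zero.1 h13 with h14 | h14
  · rw [h14, zero_smul]
  · exact absurd h14 hpos.ne'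

end LibNC38
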