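import Pool.Agent.LibNT38.T0

set_option autoImplicit false

open Matrix MeasureTheory Topology Filter
open scoped Matrix.Norms.Elementwise ContDiff

namespace LibNC38

variable {m : ℕ∞}

section TF2_general

variable {E : Type*} [NormedAddCommGroup E] [NormedSpace ℝ E] [FiniteDimensional ℝ E]
  {ι : Type*} [Fintype ι]

/-- the family of continuous linear maps -/
private noncomputable def TF2_M (e : ι → E →ₗ[ℝ] ℝ) (v : ι → E → E)
    (T : E →ₗ[ℝ] E) (x : E) : E →L[ℝ] E :=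
  (∑ i, (LinearMap.toContinuousLinearMap (e i)).smulRight (v i x)) +
    LinearMap.toContinuousLinearMap T

private theorem TF2_M_apply (e : ι → E →ₗ[ℝ] ℝ) (v : ι → E → E) (T : E →ₗ[ℝ] E) (x A : E) :
    TF2_M e v T x A = ∑ i, e i A • v i x + T A := by
  unfold TF2_M
  simp only [_root_.ContinuousLinearMap.add_apply, _root_.ContinuousLinearMap.sum_apply,
    ContinuousLinearMap.smulRight_apply, LinearMap.coe_toContinuousLinearMap']

private theorem TF2_cd {S : Set E} {v : ι → E → E} (hv : ∀ i, ContDiffOn ℝ m (v i) S)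
    (e : ι → E →ₗ[ℝ] ℝ) (T : E →ₗ[ℝ] E) : ContDiffOn ℝ m (TF2_M e v T) S := by
  unfold TF2_M
  refine ContDiffOn.add ?_ contDiffOn_const
  refine ContDiffOn.sum fun i _ => ?_
  exact (ContinuousLinearMap.smulRightL ℝ E E
    (LinearMap.toContinuousLinearMap (e i))).contDiff.comp_contDiffOn (hv i)

private theorem TF2_gen (S : Set E) (hS : IsOpen S) (x0 : E) (hx0 : x0 ∈ S)
    (e : ι → E →ₗ[ℝ] ℝ) (v : ι → E → E) (hv : ∀ i, ContDiffOn ℝ m (v i) S)
    (T : E →ₗ[ℝ] E) (hinj : ∀ A : E, ∑ i, e i A • v i x0 + T A = 0 → A = 0) :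
    ∃ (N : Set E) (B : E → E →ₗ[ℝ] E), IsOpen N ∧ N ⊆ S ∧ x0 ∈ N ∧
      (∀ w, ContDiffOn ℝ m (fun x => B x w) N) ∧
      ∀ x ∈ N, ∀ w, ∑ i, e i (B x w) • v i x + T (B x w) = w := by
  have hcomp : CompleteSpace E := FiniteDimensional.complete ℝ E
  have hM := TF2_cd hv e T
  refine ⟨S ∩ (TF2_M e v T) ⁻¹' {f : E →L[ℝ] E | IsUnit f},
    fun x => (Ring.inverse (TF2_M e v T x) : E →L[ℝ] E).toLinearMap, ?_,
    Set.inter_subset_left, ⟨hx0, ?_⟩, ?_, ?_⟩
  · exact hM.continuousOn.isOpen_inter_preimage hS Units.isOpen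
  · show IsUnit (TF2_M e v T x0)
    rw [ContinuousLinearMap.isUnit_iff_bijective]
    have h1 : Function.Injective (TF2_M e v T x0 : E →L[ℝ] E).toLinearMap := by
      rw [← LinearMap.ker_eq_bot, LinearMap.ker_eq_bot']
      intro A hA
      apply hinj A
      rw [← TF2_M_apply]
      exact hA
    exact ⟨h1, LinearMap.injective_iff_surjective.1 h1⟩
  · intro w x hx
    have h1 : ContDiffWithinAt ℝ m (TF2_M e v T)
        (S ∩ (TF2_M e v T) ⁻¹' {f : E →L[ℝ] E | IsUnit f}) x :=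
      (hM x hx.1).mono Set.inter_subset_left
    obtain ⟨u, hu⟩ : IsUnit (TF2_M e v T x) := hx.2
    have h2 : ContDiffAt ℝ m (Ring.inverse : (E →L[ℝ] E) → (E →L[ℝ] E)) (TF2_M e v T x) := by
      rw [← hu]
      exact contDiffAt_ringInverse ℝ u
    have h3 := h2.comp_contDiffWithinAt x h1
    exact ((ContinuousLinearMap.apply ℝ E w).contDiff.contDiffAt).comp_contDiffWithinAt x h3
  · intro x hx w
    have h1 := Ring.mul_inverse_cancel (TF2_M e v T x) hx.2
    have h2 := congrArg (fun f : E →L[ℝ] E => f w) h1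
    rw [← TF2_M_apply]
    exact h2

end TF2_general

/-- a matrix entry as a linear form -/
private def TF2_entry {n : ℕ} (i : Fin n × Fin n) : Mt n →ₗ[ℝ] ℝ where
  toFun := fun A => A i.1 i.2
  map_add' := fun _ _ => rfl
  map_smul' := fun _ _ => rfl

/-- Row TF2. Inverse of a `C²` family of linear maps. PLAN. In the Banach algebra
`R := Mt n →L[ℝ] Mt n` put `M x := ∑ a b, (entry a b).smulRight (v a b x) + (constant map)`; `M x0` is a
unit (injective suffices in finite dimension: `LinearMap.injective_iff_surjective`,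
`LinearEquiv.ofInjectiveEndo`, `LinearEquiv.toContinuousLinearEquiv`); `contDiffAt_ringInverse` and
`Units.isOpen`: on the open set `{x ∈ S | IsUnit (M x)}` the map `B x := Ring.inverse (M x)` is `C²` and
`M x * B x = 1`. -/
theorem fam_inv {n : ℕ} (S : Set (Mt n)) (hS : IsOpen S) (x0 : Mt n) (hx0 : x0 ∈ S)
    (v : Fin n → Fin n → Mt n → Mt n) (hv : ∀ a b, ContDiffOn ℝ m (v a b) S)
    (T : Mt n →ₗ[ℝ] Mt n) (hinj : ∀ A : Mt n, ∑ a, ∑ b, A a b • v a b x0 + T A = 0 → A = 0) :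
    ∃ (N : Set (Mt n)) (B : Mt n → Mt n →ₗ[ℝ] Mt n), IsOpen N ∧ N ⊆ S ∧ x0 ∈ N ∧
      (∀ w, ContDiffOn ℝ m (fun x => B x w) N) ∧
      ∀ x ∈ N, ∀ w, ∑ a, ∑ b, (B x w) a b • v a b x + T (B x w) = w := by
  have key : ∀ x A : Mt n, ∑ i : Fin n × Fin n, TF2_entry i A • v i.1 i.2 x =
      ∑ a, ∑ b, A a b • v a b x := by
    intro x A
    rw [Fintype.sum_prod_type]
    rfl
  obtain ⟨N, B, h1, h2, h3, h4, h5⟩ := TF2_gen S hS x0 hx0 (TF2_entry (n := n))
    (fun i => v i.1 i.2) (fun i => hv i.1 i.2) T (by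
      intro A hA
      apply hinj A
      rw [← key]
      exact hA)
  refine ⟨N, B, h1, h2, h3, h4, ?_⟩
  intro x hx w
  rw [← key]
  exact h5 x hx w

end LibNC38
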