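import Pool.Agent.LibNT38.TE4
import Pool.Agent.LibNT38.TF1
import Pool.Agent.LibNT38.TF2

set_option autoImplicit false

open Matrix MeasureTheory Topology Filter
open scoped Matrix.Norms.Elementwise ContDiff

namespace LibNC38

variable {m : ℕ∞}

private theorem TF3_tan_add {n : ℕ} {x : PD n} {v w : Mt n} (hv : IsTan x v) (hw : IsTan x w) :
    IsTan x (v + w) := by
  refine ⟨by rw [Matrix.transpose_add, hv.1, hw.1], ?_⟩
  rw [Matrix.mul_add, Matrix.trace_add, hv.2, hw.2, add_zero]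

private theorem TF3_tan_smul {n : ℕ} {x : PD n} {v : Mt n} (r : ℝ) (hv : IsTan x v) :
    IsTan x (r • v) := by
  refine ⟨by rw [Matrix.transpose_smul, hv.1], ?_⟩
  rw [Matrix.mul_smul, Matrix.trace_smul, hv.2, smul_zero]

private theorem TF3_tan_zero {n : ℕ} {x : PD n} : IsTan x (0 : Mt n) := by
  refine ⟨Matrix.transpose_zero, ?_⟩
  rw [Matrix.mul_zero, Matrix.trace_zero]

private theorem TF3_tan_sum {n : ℕ} {x : PD n} {ι : Type*} (s : Finset ι) (f : ι → Mt n)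
    (hf : ∀ i ∈ s, IsTan x (f i)) : IsTan x (∑ i ∈ s, f i) := by
  classical
  induction s using Finset.induction_on with
  | empty => simpa using TF3_tan_zero
  | insert a s ha ih =>
    rw [Finset.sum_insert ha]
    exact TF3_tan_add (hf a (Finset.mem_insert_self a s))
      (ih fun i hi => hf i (Finset.mem_insert_of_mem hi))

private noncomputable def TF3_prL (n : ℕ) : Mt n →ₗ[ℝ] Mt n where
  toFun := prS
  map_add' := prS_facts.2.2.1
  map_smul' := fun r A => prS_facts.2.2.2 r A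

private theorem TF3_prL_apply {n : ℕ} (A : Mt n) : TF3_prL n A = prS A := rfl

private theorem TF3_pr_expand {n : ℕ} (A : Mt n) :
    ∑ a, ∑ b, A a b • prS (Matrix.single a b (1 : ℝ)) = prS A := by
  have h1 : prS A = TF3_prL n A := rfl
  rw [h1]
  conv_rhs => rw [Matrix.matrix_eq_sum_single A]
  simp only [map_sum]
  refine Finset.sum_congr rfl fun a _ => Finset.sum_congr rfl fun b _ => ?_
  have h2 : Matrix.single a b (A a b) = A a b • Matrix.single a b (1 : ℝ) := by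
    rw [Matrix.smul_single, smul_eq_mul, mul_one]
  rw [h2, map_smul, TF3_prL_apply]

private noncomputable def TF3_T {n : ℕ} (e : ℝ) (h0 : Mt n) : Mt n →ₗ[ℝ] Mt n where
  toFun := fun A => e • (h0 * (A - prS A) * h0ᵀ)
  map_add' := by
    intro A B
    have h1 : A + B - prS (A + B) = (A - prS A) + (B - prS B) := by
      rw [prS_facts.2.2.1]
      abel
    rw [h1, Matrix.mul_add, Matrix.add_mul, smul_add]
  map_smul' := by
    intro r A
    have h1 : r • A - prS (r • A) = r • (A - prS A) := by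
      rw [prS_facts.2.2.2, smul_sub]
    rw [h1, Matrix.mul_smul, Matrix.smul_mul, RingHom.id_apply, smul_comm]

private theorem TF3_T_apply {n : ℕ} (e : ℝ) (h0 : Mt n) (A : Mt n) :
    TF3_T e h0 A = e • (h0 * (A - prS A) * h0ᵀ) := rfl

private theorem TF3_eps {n : ℕ} (N' : Set (Mt n)) (hN : IsOpen N') (h0 : (0 : Mt n) ∈ N') :
    ∃ e : ℝ, 0 < e ∧ ∀ a b : Fin n, e • prS (Matrix.single a b (1 : ℝ)) ∈ N' := by
  have h1 : ∀ a b : Fin n, ∀ᶠ e : ℝ in 𝓝 (0 : ℝ), e • prS (Matrix.single a b (1 : ℝ)) ∈ N' := by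
    intro a b
    have hc : Continuous fun e : ℝ => e • prS (Matrix.single a b (1 : ℝ)) :=
      continuous_id.smul continuous_const
    have h2 : N' ∈ 𝓝 ((fun e : ℝ => e • prS (Matrix.single a b (1 : ℝ))) 0) := by
      simp only [zero_smul]
      exact hN.mem_nhds h0
    exact hc.continuousAt.eventually_mem h2
  have h3 : ∀ᶠ e : ℝ in 𝓝 (0 : ℝ), ∀ a b : Fin n,
      e • prS (Matrix.single a b (1 : ℝ)) ∈ N' :=
    Filter.eventually_all.2 fun a => Filter.eventually_all.2 fun b => h1 a b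
  have h4 : ∀ᶠ e : ℝ in 𝓝[>] (0 : ℝ), ∀ a b : Fin n,
      e • prS (Matrix.single a b (1 : ℝ)) ∈ N' := h3.filter_mono nhdsWithin_le_nhds
  obtain ⟨e, he1, he2⟩ := (h4.and self_mem_nhdsWithin).exists
  exact ⟨e, he2, he1⟩

private noncomputable def TF3_eta {n : ℕ} (B : Mt n →ₗ[ℝ] Mt n) (r : Fin n → Fin n → ℝ) :
    Mt n →ₗ[ℝ] ℝ where
  toFun := fun w => ∑ a, ∑ b, (B w) a b * r a b
  map_add' := by
    intro v w
    rw [← Finset.sum_add_distrib]
    refine Finset.sum_congr rfl fun a _ => ?_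
    rw [← Finset.sum_add_distrib]
    refine Finset.sum_congr rfl fun b _ => ?_
    rw [map_add, Matrix.add_apply, add_mul]
  map_smul' := by
    intro c w
    rw [RingHom.id_apply, smul_eq_mul, Finset.mul_sum]
    refine Finset.sum_congr rfl fun a _ => ?_
    rw [Finset.mul_sum]
    refine Finset.sum_congr rfl fun b _ => ?_
    rw [map_smul, Matrix.smul_apply, smul_eq_mul, mul_assoc]

private theorem TF3_eta_apply {n : ℕ} (B : Mt n →ₗ[ℝ] Mt n) (r : Fin n → Fin n → ℝ) (w : Mt n) :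
    TF3_eta B r w = ∑ a, ∑ b, (B w) a b * r a b := rfl

/-- Row TF3. Local `C²` extension of `ξ` near `x0`.
PLAN. `N'` from `base_pt`, choose `ε > 0` with `Z a b := ε • prS (single a b 1) ∈ N'` for all `a b`
(finitely many; `N'` is a neighbourhood of `0`). `S a b, v a b, ρ a b` from `base_pt`; `S := ⋂ S a b`
(`isOpen_iInter_of_finite`). `T A := ε h0 (A - prS A) h0ᵀ`, `h0 = (tch x0).1`. Injectivity at `x0`:
`∑ A a b • v a b x0 + T A = ε h0 (prS A) h0ᵀ + ε h0 (A - prS A) h0ᵀ = ε h0 A h0ᵀ` (linearity of `prS`,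
`Matrix.matrix_eq_sum_single`). `B` from `fam_inv`. For `x ∈ PD n` in `N` and `w` tangent at `x`, put
`A := B x w`: `T A = w - ∑ ..` is tangent at `x` (tangent vectors form a subspace), so `T A = 0` by
`tan_zero`; hence `ξ x w = ∑ A a b * ρ a b x`, and `η x w := ∑ a b, (B x w) a b * ρ a b x`. -/
theorem loc_ext {n : ℕ} (κ : PD n → Fm n) (hκ : CmF m κ) (c0 : ℝ)
    (ξ : PD n → Mt n →ₗ[ℝ] ℝ) (hG : GD κ c0 ξ) (x0 : PD n) :
    ∃ (N : Set (Mt n)) (η : Mt n → Mt n →ₗ[ℝ] ℝ), IsOpen N ∧ x0.1 ∈ N ∧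
      (∀ w, ContDiffOn ℝ m (fun x => η x w) N) ∧
      ∀ x : PD n, x.1 ∈ N → ∀ w, IsTan x w → ξ x w = η x.1 w := by
  classical
  obtain ⟨N', hN'o, hN'0, hN'⟩ := base_pt κ hκ c0 ξ hG x0
  obtain ⟨e, he, heN⟩ := TF3_eps N' hN'o hN'0
  have hsym : ∀ a b : Fin n, Sym0 (e • prS (Matrix.single a b (1 : ℝ))) := by
    intro a b
    have h1 := prS_facts.1 (Matrix.single a b (1 : ℝ))
    refine ⟨?_, ?_⟩
    · rw [Matrix.transpose_smul, h1.1]
    · rw [Matrix.trace_smul, h1.2, smul_zero]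
  have hall : ∀ a b : Fin n, ∃ (S : Set (Mt n)) (v : Mt n → Mt n) (ρ : Mt n → ℝ), IsOpen S ∧
      x0.1 ∈ S ∧ ContDiffOn ℝ m v S ∧ ContDiffOn ℝ m ρ S ∧
      v x0.1 = (tch x0).1 * (e • prS (Matrix.single a b (1 : ℝ))) * (tch x0).1ᵀ ∧
        ∀ x : PD n, x.1 ∈ S → IsTan x (v x.1) ∧ ξ x (v x.1) = ρ x.1 :=
    fun a b => hN' _ (heN a b) (hsym a b)
  choose S v ρ hSo hSx hvC hρC hv0 hvr using hall
  set h0 : Mt n := (tch x0).1 with hh0
  have hdet : h0.det = 1 := (tch x0).2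
  have hunit : IsUnit h0.det := by rw [hdet]; exact isUnit_one
  have hSint : IsOpen (⋂ a, ⋂ b, S a b) :=
    isOpen_iInter_of_finite fun a => isOpen_iInter_of_finite fun b => hSo a b
  have hsub : ∀ a b, (⋂ a, ⋂ b, S a b) ⊆ S a b := fun a b =>
    (Set.iInter_subset _ a).trans (Set.iInter_subset _ b)
  have hxint : x0.1 ∈ ⋂ a, ⋂ b, S a b :=
    Set.mem_iInter.2 fun a => Set.mem_iInter.2 fun b => hSx a b
  have hexp : ∀ A : Mt n, ∑ a, ∑ b, A a b • v a b x0.1 = e • (h0 * prS A * h0ᵀ) := by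
    intro A
    have h1 : ∀ a b, A a b • v a b x0.1 =
        e • (h0 * (A a b • prS (Matrix.single a b (1 : ℝ))) * h0ᵀ) := by
      intro a b
      rw [hv0, Matrix.mul_smul, Matrix.smul_mul, Matrix.mul_smul, Matrix.smul_mul, smul_comm]
    simp only [h1]
    rw [← TF3_pr_expand A]
    simp only [Finset.mul_sum, Finset.sum_mul, Finset.smul_sum]
  have hinj : ∀ A : Mt n, ∑ a, ∑ b, A a b • v a b x0.1 + TF3_T e h0 A = 0 → A = 0 := by
    intro A hA
    rw [hexp, TF3_T_apply, ← smul_add, ← Matrix.add_mul, ← Matrix.mul_add] at hA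
    have h1 : prS A + (A - prS A) = A := by abel
    rw [h1] at hA
    have h2 : h0 * A * h0ᵀ = 0 := by
      rcases smul_eq_zero.1 hA with h | h
      · exact absurd h he.ne'
      · exact h
    have h3 : h0⁻¹ * (h0 * A * h0ᵀ) * (h0ᵀ)⁻¹ = 0 := by rw [h2, Matrix.mul_zero, Matrix.zero_mul]
    have hunit2 : IsUnit (h0ᵀ).det := by rw [Matrix.det_transpose]; exact hunit
    have h4 : h0⁻¹ * (h0 * A * h0ᵀ) * (h0ᵀ)⁻¹ = A := by
      rw [Matrix.mul_assoc h0 A, Matrix.nonsing_inv_mul_cancel_left _ _ hunit,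
        Matrix.mul_nonsing_inv_cancel_right _ _ hunit2]
    rw [← h4, h3]
  obtain ⟨N, B, hNo, hNS, hxN, hBC, hBeq⟩ := fam_inv (⋂ a, ⋂ b, S a b) hSint x0.1 hxint v
    (fun a b => (hvC a b).mono (hsub a b)) (TF3_T e h0) hinj
  refine ⟨N, fun x => TF3_eta (B x) (fun a b => ρ a b x), hNo, hxN, ?_, ?_⟩
  · intro w
    simp only [TF3_eta_apply]
    refine ContDiffOn.sum fun a _ => ContDiffOn.sum fun b _ => ?_
    exact (cd_entry (hBC w) a b).mul ((hρC a b).mono (hNS.trans (hsub a b)))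
  · intro x hx w hw
    have hxS : ∀ a b, x.1 ∈ S a b := fun a b => hsub a b (hNS hx)
    have hB := hBeq x.1 hx w
    set A : Mt n := B x.1 w with hA
    have hTt : IsTan x (∑ a, ∑ b, A a b • v a b x.1) :=
      TF3_tan_sum _ _ fun a _ => TF3_tan_sum _ _ fun b _ =>
        TF3_tan_smul _ (hvr a b x (hxS a b)).1
    have hT2 : TF3_T e h0 A = w + (-1 : ℝ) • ∑ a, ∑ b, A a b • v a b x.1 := by
      rw [neg_one_smul, ← sub_eq_add_neg]
      exact eq_sub_of_add_eq' hB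
    have hT3 : IsTan x (TF3_T e h0 A) := by
      rw [hT2]
      exact TF3_tan_add hw (TF3_tan_smul _ hTt)
    rw [TF3_T_apply] at hT3
    have hT4 : h0 * (A - prS A) * h0ᵀ = 0 :=
      tan_zero x x0 e he.ne' (tch x0) (tch_mul x0) A hT3
    have hT5 : TF3_T e h0 A = 0 := by rw [TF3_T_apply, hT4, smul_zero]
    rw [hT5, add_zero] at hB
    have h6 : ξ x w = ξ x (∑ a, ∑ b, A a b • v a b x.1) := by rw [hB]
    rw [h6, TF3_eta_apply]
    simp only [map_sum]
    refine Finset.sum_congr rfl fun a _ => Finset.sum_congr rfl fun b _ => ?_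
    rw [map_smul, smul_eq_mul, (hvr a b x (hxS a b)).2]

end LibNC38
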