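import Pool.Agent.LibNT38.T0

set_option autoImplicit false

open Matrix MeasureTheory Topology Filter
open scoped Matrix.Norms.Elementwise

namespace LibNC38

private theorem TG1_iff {n : ℕ} (A : Mt n) :
    ((1 / 2 : ℝ) • (A + Aᵀ)).PosDef ↔ ∀ x : Fin n → ℝ, x ≠ 0 → 0 < x ⬝ᵥ (A *ᵥ x) := by
  have hT : ∀ x : Fin n → ℝ, x ⬝ᵥ (Aᵀ *ᵥ x) = x ⬝ᵥ (A *ᵥ x) := by
    intro x
    rw [Matrix.mulVec_transpose, dotProduct_comm, ← Matrix.dotProduct_mulVec]
  have hq : ∀ x : Fin n → ℝ, star x ⬝ᵥ (((1 / 2 : ℝ) • (A + Aᵀ)) *ᵥ x) = x ⬝ᵥ (A *ᵥ x) := by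
    intro x
    rw [star_trivial, Matrix.smul_mulVec, dotProduct_smul, Matrix.add_mulVec, dotProduct_add, hT,
      smul_eq_mul]
    ring
  rw [Matrix.posDef_iff_dotProduct_mulVec]
  constructor
  · rintro ⟨-, h⟩ x hx
    rw [← hq]
    exact h hx
  · intro h
    refine ⟨?_, fun x hx => ?_⟩
    · rw [Matrix.IsHermitian, Matrix.conjTranspose_eq_transpose_of_trivial, Matrix.transpose_smul,
        Matrix.transpose_add, Matrix.transpose_transpose, add_comm]
    · rw [hq]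
      exact h x hx

/-- Row TG1. The matrices with positive definite symmetric part form an open set.
PLAN. For `A` in the set, the quadratic form `x ↦ x ⬝ᵥ (A *ᵥ x)` is continuous and positive on the
compact set `{x : Fin n → ℝ | ‖x‖ = 1}` (sup norm sphere), so `≥ m > 0` there (if the sphere is empty
everything is trivial), and `|x ⬝ᵥ (B *ᵥ x)| ≤ n² ‖B‖` there; so the ball of radius `m / (n² + 1)` around
`A` is in the set. (`Matrix.PosDef` for real matrices: symmetric and `0 < x ⬝ᵥ (A *ᵥ x)`, `x ≠ 0`;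
`Matrix.posDef_iff_dotProduct_mulVec` or similar.) -/
theorem pd_open {n : ℕ} : IsOpen {A : Mt n | ((1 / 2 : ℝ) • (A + Aᵀ)).PosDef} := by
  rw [isOpen_iff_mem_nhds]
  intro A hA
  have hA' := (TG1_iff A).1 hA
  have hcont : Continuous fun p : Mt n × (Fin n → ℝ) => p.2 ⬝ᵥ (p.1 *ᵥ p.2) :=
    Continuous.dotProduct continuous_snd (continuous_fst.matrix_mulVec continuous_snd)
  have hK : IsCompact (Metric.sphere (0 : Fin n → ℝ) 1) := isCompact_sphere 0 1
  have hev : ∀ᶠ B : Mt n in 𝓝 A, ∀ x ∈ Metric.sphere (0 : Fin n → ℝ) 1, 0 < x ⬝ᵥ (B *ᵥ x) := by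
    refine hK.eventually_forall_of_forall_eventually fun x hx => ?_
    have hx0 : x ≠ 0 := by
      rintro rfl
      simp at hx
    exact hcont.continuousAt.eventually (lt_mem_nhds (hA' x hx0))
  filter_upwards [hev] with B hB
  refine (TG1_iff B).2 fun x hx => ?_
  have hn : 0 < ‖x‖ := norm_pos_iff.2 hx
  have h1 : ‖x‖⁻¹ • x ∈ Metric.sphere (0 : Fin n → ℝ) 1 := by
    rw [mem_sphere_zero_iff_norm, norm_smul, norm_inv, norm_norm, inv_mul_cancel₀ hn.ne']
  have h2 := hB _ h1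
  rw [Matrix.mulVec_smul, dotProduct_smul, smul_dotProduct, smul_eq_mul, smul_eq_mul] at h2
  have h3 : 0 < ‖x‖⁻¹ := inv_pos.2 hn
  exact (mul_pos_iff_of_pos_left h3).1 ((mul_pos_iff_of_pos_left h3).1 h2)

end LibNC38
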