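import Pool.Agent.LibNT38.TG1

set_option autoImplicit false

open Matrix MeasureTheory Topology Filter
open scoped Matrix.Norms.Elementwise ContDiff

namespace LibNC38

/-- the symmetric part -/
noncomputable def syp {n : ℕ} (A : Mt n) : Mt n := (1 / 2 : ℝ) • (A + Aᵀ)

/-- `det(s)^(-1/n)`, `s` the symmetric part -/
noncomputable def rk {n : ℕ} (A : Mt n) : ℝ :=
  Real.exp (-(1 / (n : ℝ)) * Real.log (syp A).det)

private theorem TG2_det {n : ℕ} {A : Mt n} (h : (syp A).PosDef) :
    (rk A • syp A).det = 1 := by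
  have hd : 0 < (syp A).det := h.det_pos
  rw [Matrix.det_smul, Fintype.card_fin]
  rcases Nat.eq_zero_or_pos n with h0 | h0
  · subst h0
    simp
  · have hn : (n : ℝ) ≠ 0 := by exact_mod_cast h0.ne'
    unfold rk
    rw [← Real.exp_nat_mul]
    have h1 : (n : ℝ) * (-(1 / (n : ℝ)) * Real.log (syp A).det) = -Real.log (syp A).det := by
      field_simp
    rw [h1, Real.exp_neg, Real.exp_log hd]
    exact inv_mul_cancel₀ hd.ne'

private theorem TG2_pos {n : ℕ} {A : Mt n} (h : (syp A).PosDef) :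
    (rk A • syp A).PosDef := h.smul (Real.exp_pos _)

open Classical in
/-- the retraction `A ↦ det(s)^(-1/n) s`, `s` the symmetric part, onto `PD n` -/
noncomputable def ret {n : ℕ} (A : Mt n) : PD n :=
  if h : (syp A).PosDef then ⟨rk A • syp A, TG2_pos h, TG2_det h⟩ else o n

private theorem TG2_rv {n : ℕ} {A : Mt n} (h : (syp A).PosDef) :
    (ret A).1 = rk A • syp A := by
  unfold ret
  rw [dif_pos h]

private theorem TG2_sym {n : ℕ} (p : PD n) : syp p.1 = p.1 := by
  have h1 : p.1ᵀ = p.1 := by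
    have h2 := p.2.1.isHermitian
    rwa [Matrix.IsHermitian, Matrix.conjTranspose_eq_transpose_of_trivial] at h2
  unfold syp
  rw [h1]
  ext i j
  simp only [Matrix.smul_apply, Matrix.add_apply, smul_eq_mul]
  ring

/-- the open set of matrices with positive definite symmetric part -/
def PU (n : ℕ) : Set (Mt n) := {A : Mt n | ((1 / 2 : ℝ) • (A + Aᵀ)).PosDef}

theorem PU_open {n : ℕ} : IsOpen (PU n) := pd_open

theorem mem_PU {n : ℕ} (p : PD n) : p.1 ∈ PU n := by
  show (syp p.1).PosDef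
  rw [TG2_sym]
  exact p.2.1

theorem syp_self {n : ℕ} (p : PD n) : syp p.1 = p.1 := TG2_sym p

theorem ret_val {n : ℕ} {A : Mt n} (h : A ∈ PU n) : (ret A).1 = rk A • syp A := TG2_rv h

theorem rk_pos {n : ℕ} (A : Mt n) : 0 < rk A := Real.exp_pos _

theorem ret_self {n : ℕ} (p : PD n) : ret p.1 = p := by
  apply Subtype.ext
  rw [TG2_rv (mem_PU p), TG2_sym]
  have h7 : rk p.1 = 1 := by
    unfold rk
    rw [TG2_sym, p.2.2, Real.log_one, mul_zero, Real.exp_zero]
  rw [h7, one_smul]

theorem syp_smooth {n : ℕ} {m : WithTop ℕ∞} {S : Set (Mt n)} :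
    ContDiffOn ℝ m (fun A : Mt n => syp A) S := by
  have h1 : ContDiffOn ℝ m (fun A : Mt n => A) S := contDiffOn_id
  rw [cd_iff]
  intro i j
  have h2 := cd_entry h1 i j
  have h3 := cd_entry (cd_transpose h1) i j
  have h4 : (fun A : Mt n => syp A i j) = fun A : Mt n => (1 / 2 : ℝ) * (A i j + Aᵀ i j) := by
    funext A
    simp only [syp, Matrix.smul_apply, Matrix.add_apply, smul_eq_mul]
  rw [h4]
  exact contDiffOn_const.mul (h2.add h3)

theorem rk_smooth {n : ℕ} {m : WithTop ℕ∞} : ContDiffOn ℝ m (fun A : Mt n => rk A) (PU n) := by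
  unfold rk
  refine ContDiffOn.exp (contDiffOn_const.mul (ContDiffOn.log (cd_det syp_smooth) ?_))
  intro A hA
  have h5 : (syp A).PosDef := hA
  exact h5.det_pos.ne'

/-- Row TG2. The retraction is smooth. -/
theorem ret_smooth {n : ℕ} {m : WithTop ℕ∞} : ContDiffOn ℝ m (fun A : Mt n => (ret A).1) (PU n) := by
  rw [cd_iff]
  intro i j
  have h6 : ContDiffOn ℝ m (fun A : Mt n => rk A * syp A i j) (PU n) :=
    rk_smooth.mul (cd_entry syp_smooth i j)
  refine h6.congr ?_
  intro A hA
  rw [TG2_rv hA, Matrix.smul_apply, smul_eq_mul]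

end LibNC38
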