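import Pool.Agent.LibNT38.T0

set_option autoImplicit false

open Matrix MeasureTheory Topology Filter
open scoped Matrix.Norms.Elementwise

namespace LibNC38

/-- the projection onto the tangent space at `x` -/
noncomputable def prT {n : ℕ} (x : Mt n) (v : Mt n) : Mt n :=
  (1 / 2 : ℝ) • (v + vᵀ) - ((x⁻¹ * ((1 / 2 : ℝ) • (v + vᵀ))).trace / n) • x

private theorem TH1_inv {n : ℕ} (x : PD n) : (x.1)⁻¹ * x.1 = 1 :=
  Matrix.nonsing_inv_mul _ (by rw [x.2.2]; exact isUnit_one)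

private theorem TH1_sym {n : ℕ} (x : PD n) : (x.1)ᵀ = x.1 := by
  have h := x.2.1.isHermitian
  have h2 : (x.1)ᴴ = x.1 := h
  rwa [Matrix.conjTranspose_eq_transpose_of_trivial] at h2

private theorem TH1_half {n : ℕ} (v : Mt n) : (1 / 2 : ℝ) • (v + v) = v := by
  rw [← two_smul ℝ v, smul_smul]; norm_num

private theorem TH1_a {n : ℕ} (x : PD n) (v : Mt n) : IsTan x (prT x.1 v) := by
  constructor
  · unfold prT
    rw [Matrix.transpose_sub, Matrix.transpose_smul, Matrix.transpose_smul, Matrix.transpose_add,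
      Matrix.transpose_transpose, TH1_sym x, add_comm vᵀ v]
  · rcases Nat.eq_zero_or_pos n with h0 | h0
    · subst h0
      simp [Matrix.trace]
    · unfold prT
      have hn : (n : ℝ) ≠ 0 := by positivity
      rw [Matrix.mul_sub, Matrix.trace_sub, Matrix.mul_smul x.1⁻¹ _ x.1, Matrix.trace_smul, TH1_inv x,
        Matrix.trace_one, Fintype.card_fin, smul_eq_mul, div_mul_cancel₀ _ hn, sub_self]

private theorem TH1_b {n : ℕ} (x : PD n) (v : Mt n) (h : IsTan x v) : prT x.1 v = v := by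
  obtain ⟨h1, h2⟩ := h
  unfold prT
  rw [h1, TH1_half v, h2, zero_div, zero_smul, sub_zero]

private theorem TH1_c {n : ℕ} (x : PD n) : prT x.1 x.1 = 0 := by
  rcases Nat.eq_zero_or_pos n with h0 | h0
  · subst h0
    exact Subsingleton.elim _ _
  · unfold prT
    have hn : (n : ℝ) ≠ 0 := by positivity
    rw [TH1_sym x, TH1_half x.1, TH1_inv x, Matrix.trace_one, Fintype.card_fin, div_self hn, one_smul,
      sub_self]

private theorem TH1_d {n : ℕ} (x v : Mt n) : prT x vᵀ = prT x v := by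
  unfold prT
  rw [Matrix.transpose_transpose, add_comm vᵀ v]

private theorem TH1_e {n : ℕ} (x v w : Mt n) : prT x (v + w) = prT x v + prT x w := by
  unfold prT
  have h1 : (1 / 2 : ℝ) • (v + w + (v + w)ᵀ) = (1 / 2 : ℝ) • (v + vᵀ) + (1 / 2 : ℝ) • (w + wᵀ) := by
    rw [← smul_add, Matrix.transpose_add]
    congr 1
    abel
  rw [h1, Matrix.mul_add, Matrix.trace_add, add_div, add_smul]
  abel

private theorem TH1_f {n : ℕ} (x : Mt n) (r : ℝ) (v : Mt n) : prT x (r • v) = r • prT x v := by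
  unfold prT
  have h1 : (1 / 2 : ℝ) • (r • v + (r • v)ᵀ) = r • ((1 / 2 : ℝ) • (v + vᵀ)) := by
    rw [Matrix.transpose_smul, ← smul_add, smul_comm]
  rw [h1, Matrix.mul_smul, Matrix.trace_smul, smul_eq_mul, mul_div_assoc, mul_smul, ← smul_sub]

/-- Row TH1. Facts on `prT`. (`tr (x⁻¹ x) = n`; `n = 0`: all matrices are equal.) -/
theorem prT_facts {n : ℕ} : (∀ (x : PD n) (v : Mt n), IsTan x (prT x.1 v)) ∧
    (∀ (x : PD n) (v : Mt n), IsTan x v → prT x.1 v = v) ∧ (∀ x : PD n, prT x.1 x.1 = 0) ∧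
    (∀ x v : Mt n, prT x vᵀ = prT x v) ∧
    (∀ x v w : Mt n, prT x (v + w) = prT x v + prT x w) ∧
    (∀ (x : Mt n) (r : ℝ) (v : Mt n), prT x (r • v) = r • prT x v) :=
  ⟨TH1_a, TH1_b, TH1_c, TH1_d, TH1_e, TH1_f⟩

end LibNC38
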