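import Pool.Agent.LibNT38.TF3
import Pool.Agent.LibNT38.TH1

set_option autoImplicit false

open Matrix MeasureTheory Topology Filter
open scoped Matrix.Norms.Elementwise ContDiff

namespace LibNC38

variable {m : ℕ∞}

private theorem TH2_prT {n : ℕ} (V : Set (Mt n)) (r : Mt n → PD n)
    (hr : ContDiffOn ℝ m (fun A => (r A).1) V) (v : Mt n) :
    ContDiffOn ℝ m (fun A => prT (r A).1 v) V := by
  have h0 : ∀ A ∈ V, (r A).1.det ≠ 0 := fun A _ => by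
    rw [(r A).2.2]; exact one_ne_zero
  have h1 : ContDiffOn ℝ m (fun A => ((r A).1)⁻¹ * ((1 / 2 : ℝ) • (v + vᵀ))) V :=
    cd_mul (cd_inv hr h0) contDiffOn_const
  have h2 : ContDiffOn ℝ m
      (fun A => (((r A).1)⁻¹ * ((1 / 2 : ℝ) • (v + vᵀ))).trace / (n : ℝ)) V :=
    (cd_trace h1).div_const _
  exact contDiffOn_const.sub (h2.smul hr)

/-- Row TH2. The extension `A ↦ ξ_{r A} (prT (r A) v)` is `C²` on `U`. PLAN. Near `A0 ∈ U` use
`loc_ext` at `x0 = r A0` on `N`: for `A` near `A0`, `(r A).1 ∈ N` and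
`ξ (r A) (prT (r A).1 v) = η (r A).1 (prT (r A).1 v)` (`prT_facts.1`), `C²` by `cd_lin` (form
`A ↦ η (r A).1`, `(hη w).comp`), `cd_inv` (`det = 1 ≠ 0`), `cd_mul`, `cd_trace` of `T0`.
(`ContDiffOn` on an open set is local: `ContDiffWithinAt.congr_of_eventuallyEq`, `contDiffWithinAt_inter`.) -/
theorem ext_smooth {n : ℕ} (κ : PD n → Fm n) (hκ : CmF m κ) (c0 : ℝ)
    (ξ : PD n → Mt n →ₗ[ℝ] ℝ) (hG : GD κ c0 ξ) (U : Set (Mt n)) (r : Mt n → PD n) (hU : IsOpen U)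
    (hr : ContDiffOn ℝ m (fun A => (r A).1) U) (v : Mt n) :
    ContDiffOn ℝ m (fun A => ξ (r A) (prT (r A).1 v)) U := by
  intro A0 hA0
  obtain ⟨N, η, hN, hx0, hη, hext⟩ := loc_ext κ hκ c0 ξ hG (r A0)
  have hV : IsOpen (U ∩ (fun A => (r A).1) ⁻¹' N) :=
    hr.continuousOn.isOpen_inter_preimage hU hN
  have hrV : ContDiffOn ℝ m (fun A => (r A).1) (U ∩ (fun A => (r A).1) ⁻¹' N) :=
    hr.mono Set.inter_subset_left
  have h1 : ContDiffOn ℝ m (fun A => η (r A).1 (prT (r A).1 v))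
      (U ∩ (fun A => (r A).1) ⁻¹' N) := by
    refine cd_lin (η := fun A => η (r A).1) (fun w => ?_) (TH2_prT _ r hrV v)
    exact (hη w).comp hrV (fun A hA => hA.2)
  have h2 : ContDiffOn ℝ m (fun A => ξ (r A) (prT (r A).1 v))
      (U ∩ (fun A => (r A).1) ⁻¹' N) :=
    h1.congr fun A hA => hext (r A) hA.2 _ (prT_facts.1 (r A) v)
  exact (h2.contDiffAt (hV.mem_nhds ⟨hA0, hx0⟩)).contDiffWithinAt

end LibNC38
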