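import Pool.Agent.LibNT38.TH2
import Pool.Agent.LibNT38.TG2

set_option autoImplicit false

open Matrix MeasureTheory Topology Filter
open scoped Matrix.Norms.Elementwise ContDiff

namespace LibNC38

variable {m : ℕ∞}

/-- the matrix of the linear form `v ↦ η (prT x v)` -/
private noncomputable def TH3_Xi {n : ℕ} (x : PD n) (η : Mt n →ₗ[ℝ] ℝ) : Mt n :=
  Matrix.of fun i j => η (prT x.1 (Matrix.single j i 1))

private theorem TH3_tr {n : ℕ} (x : PD n) (η : Mt n →ₗ[ℝ] ℝ) (v : Mt n) :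
    η (prT x.1 v) = (TH3_Xi x η * v).trace := by
  obtain ⟨-, -, -, -, hadd, hsmul⟩ := prT_facts (n := n)
  let L : Mt n →ₗ[ℝ] ℝ :=
    { toFun := fun w => η (prT x.1 w)
      map_add' := fun a b => by rw [hadd, map_add]
      map_smul' := fun c a => by rw [hsmul, map_smul, RingHom.id_apply] }
  have h1 : ∀ w, η (prT x.1 w) = L w := fun w => rfl
  rw [h1, Matrix.matrix_eq_sum_single v]
  simp only [map_sum]
  rw [← Matrix.matrix_eq_sum_single v]
  simp only [Matrix.trace, Matrix.diag, Matrix.mul_apply]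
  rw [Finset.sum_comm]
  refine Finset.sum_congr rfl fun j _ => Finset.sum_congr rfl fun i _ => ?_
  have h2 : Matrix.single i j (v i j) = v i j • Matrix.single i j (1 : ℝ) := by
    rw [Matrix.smul_single, smul_eq_mul, mul_one]
  rw [h2, map_smul, smul_eq_mul, mul_comm]
  rfl

private theorem TH3_symm {n : ℕ} (x : PD n) (η : Mt n →ₗ[ℝ] ℝ) :
    (TH3_Xi x η)ᵀ = TH3_Xi x η := by
  obtain ⟨-, -, -, htr, -, -⟩ := prT_facts (n := n)
  ext i j
  show η (prT x.1 (Matrix.single i j 1)) = η (prT x.1 (Matrix.single j i 1))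
  rw [← htr x.1 (Matrix.single i j (1 : ℝ)), Matrix.transpose_single]

private theorem TH3_self {n : ℕ} (x : PD n) (η : Mt n →ₗ[ℝ] ℝ) :
    (TH3_Xi x η * x.1).trace = 0 := by
  obtain ⟨-, -, h0, -, -, -⟩ := prT_facts (n := n)
  rw [← TH3_tr, h0, map_zero]

/-- Row TH3. The vector field. PLAN. `U, r` from `retr`;
`Xi A := Matrix.of fun i j => ξ (r A) (prT (r A).1 (single j i 1))`, so that
`ξ (r A) (prT (r A).1 v) = (Xi A * v).trace` for all `v` (`prT_facts`, `Matrix.matrix_eq_sum_single`); on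
`PD n`: `Xi` symmetric (`prT x vᵀ = prT x v`), `tr (Xi x * x) = 0` (`prT x x = 0`).
`Y A := (1/2) • (A * Xi A * A)`, `C²` by `ext_smooth`, `cd_iff`, `cd_mul`. `IsTan`: symmetric,
`tr (p⁻¹ Y) = tr (Xi p) / 2 = 0`; `2 tr (p⁻¹ Y p⁻¹ v) = tr (Xi v) = ξ p v` for tangent `v`. -/
theorem glob_Y {n : ℕ} (κ : PD n → Fm n) (hκ : CmF m κ) (c0 : ℝ)
    (ξ : PD n → Mt n →ₗ[ℝ] ℝ) (hG : GD κ c0 ξ) :
    ∃ Y : Mt n → Mt n, ContDiffOn ℝ m Y (PU n) ∧ (∀ p : PD n, IsTan p (Y p.1)) ∧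
      ∀ (p : PD n) (v : Mt n), IsTan p v → ξ p v = 2 * (p.1⁻¹ * Y p.1 * (p.1⁻¹ * v)).trace := by
  obtain ⟨-, hid, -, -, -, -⟩ := prT_facts (n := n)
  refine ⟨fun A => (1 / 2 : ℝ) • (A * TH3_Xi (ret A) (ξ (ret A)) * A), ?_, ?_, ?_⟩
  · have hX : ContDiffOn ℝ m (fun A => TH3_Xi (ret A) (ξ (ret A))) (PU n) := by
      rw [cd_iff]
      intro i j
      exact ext_smooth κ hκ c0 ξ hG (PU n) ret PU_open ret_smooth (Matrix.single j i 1)
    exact (cd_mul (cd_mul contDiffOn_id hX) contDiffOn_id).const_smul (1 / 2 : ℝ)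
  · intro p
    have hu : IsUnit p.1.det := by rw [p.2.2]; exact isUnit_one
    have hs : p.1ᵀ = p.1 := by
      have := p.2.1.isHermitian
      rw [Matrix.IsHermitian, Matrix.conjTranspose_eq_transpose_of_trivial] at this
      exact this
    show ((1 / 2 : ℝ) • (p.1 * TH3_Xi (ret p.1) (ξ (ret p.1)) * p.1))ᵀ
        = (1 / 2 : ℝ) • (p.1 * TH3_Xi (ret p.1) (ξ (ret p.1)) * p.1) ∧
      (p.1⁻¹ * ((1 / 2 : ℝ) • (p.1 * TH3_Xi (ret p.1) (ξ (ret p.1)) * p.1))).trace = 0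
    rw [ret_self p]
    constructor
    · rw [Matrix.transpose_smul, Matrix.transpose_mul, Matrix.transpose_mul, TH3_symm, hs,
        Matrix.mul_assoc]
    · rw [Matrix.mul_smul, Matrix.mul_assoc, ← Matrix.mul_assoc p.1⁻¹,
        Matrix.nonsing_inv_mul _ hu, Matrix.one_mul, Matrix.trace_smul, TH3_self, smul_zero]
  · intro p v hv
    have hu : IsUnit p.1.det := by rw [p.2.2]; exact isUnit_one
    show ξ p v = 2 * (p.1⁻¹ * ((1 / 2 : ℝ) • (p.1 * TH3_Xi (ret p.1) (ξ (ret p.1)) * p.1))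
      * (p.1⁻¹ * v)).trace
    rw [ret_self p]
    have h1 : p.1⁻¹ * ((1 / 2 : ℝ) • (p.1 * TH3_Xi p (ξ p) * p.1)) * (p.1⁻¹ * v)
        = (1 / 2 : ℝ) • (TH3_Xi p (ξ p) * v) := by
      rw [Matrix.mul_smul, Matrix.smul_mul]
      congr 1
      rw [Matrix.mul_assoc p.1, ← Matrix.mul_assoc p.1⁻¹, Matrix.nonsing_inv_mul _ hu,
        Matrix.one_mul, Matrix.mul_assoc, ← Matrix.mul_assoc p.1, Matrix.mul_nonsing_inv _ hu,
        Matrix.one_mul]
    rw [h1, Matrix.trace_smul, ← TH3_tr, hid p v hv, smul_eq_mul]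
    ring

end LibNC38
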